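import Pool.Agent.Lib.MP_9fc97b_ut.TB5
import Pool.Agent.Lib.MP_9fc97b_ut.Rec

/-!
# GE: the criterion for the Galvin property inside a transitive model, definitions

`E` is a transitive model of ZFC (`ZFSet.{0}`), `kap` is inaccessible in `E`, `lam` is the
successor of `kap` in `E`, `del` the successor of `lam`, `2 ^ kap = lam`.  Everything is about
elements of `E`; `ap f x` is the value of the function `f` at `x`.
-/

set_option autoImplicit false
set_option linter.unusedVariables false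

open Set

namespace Pool.GE

open Pool.MP_3ade05_lc Pool.PC Pool.UL Pool.UT

/-- `A` is positive with respect to `F`. -/
def Pos (lam F A : ZFSet.{0}) : Prop := lam \ A ∉ F

/-- `A` is contained in `B` modulo `F`. -/
def SubM (lam F A B : ZFSet.{0}) : Prop := ZFSet.sep (fun x => x ∈ A → x ∈ B) lam ∈ F

/-- The cardinal arithmetic. -/
structure GS (E : Set ZFSet.{0}) (kap lam del : ZFSet.{0}) : Prop where
  trans : ∀ x ∈ E, ∀ y ∈ x, y ∈ E
  zfc : ZFCModel E
  kap_card : InfCard E kap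
  lam_card : InfCard E lam
  del_card : InfCard E del
  om : ZFSet.omega ∈ kap
  kap_lam : kap ∈ lam
  lam_del : lam ∈ del
  lam_cov : ∀ b ∈ lam, Cov E kap b
  del_cov : ∀ b ∈ del, Cov E lam b
  reg : ∀ a ∈ kap, ∀ f ∈ E, FunOn f a → (∀ x ∈ a, ap f x ∈ kap) →
    ∃ b ∈ kap, ∀ x ∈ a, ap f x ∈ b
  SL : ∀ a ∈ kap, ∃ d ∈ kap, PowLe E a d
  sqk : Sq E kap
  sql : Sq E lam
  PK : PowLe E kap lam

/-- `F` is a normal filter on `lam` in `E`. -/
structure NF (E : Set ZFSet.{0}) (lam F : ZFSet.{0}) : Prop where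
  mem : F ∈ E
  sub : ∀ A ∈ F, A ⊆ lam
  up : ∀ A ∈ F, ∀ B ∈ E, B ⊆ lam → A ⊆ B → B ∈ F
  inter : ∀ A ∈ F, ∀ B ∈ F, A ∩ B ∈ F
  empty : (∅ : ZFSet.{0}) ∉ F
  final : ∀ b ∈ lam, ZFSet.sep (fun y => b ∈ y) lam ∈ F
  diag : ∀ C ∈ E, FunOn C lam → (∀ x ∈ lam, ap C x ∈ F) →
    ZFSet.sep (fun y => ∀ x ∈ y, y ∈ ap C x) lam ∈ F

/-- `D` is a family of positive sets indexed by `lam`, dense modulo `F`. -/
structure DF (E : Set ZFSet.{0}) (lam F D : ZFSet.{0}) : Prop where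
  mem : D ∈ E
  fn : FunOn D lam
  sub : ∀ a ∈ lam, ap D a ⊆ lam
  pos : ∀ a ∈ lam, Pos lam F (ap D a)
  dense : ∀ A ∈ E, A ⊆ lam → Pos lam F A → ∃ a ∈ lam, SubM lam F (ap D a) A

/-- The family `D` is closed under lower bounds of descending sequences of length `< kap`. -/
def DescCl (E : Set ZFSet.{0}) (kap lam F D : ZFSet.{0}) : Prop :=
  ∀ i ∈ kap, ∀ s ∈ E, FunOn s i → (∀ x ∈ i, ap s x ∈ lam) →
    (∀ x ∈ i, ∀ y ∈ x, SubM lam F (ap D (ap s x)) (ap D (ap s y))) →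
    ∃ a ∈ lam, ∀ x ∈ i, SubM lam F (ap D a) (ap D (ap s x))

/-- `G` is a proper `kap`-complete filter on `lam` in `E`. -/
structure KFil (E : Set ZFSet.{0}) (kap lam G : ZFSet.{0}) : Prop where
  mem : G ∈ E
  sub : ∀ A ∈ G, A ⊆ lam
  up : ∀ A ∈ G, ∀ B ∈ E, B ⊆ lam → A ⊆ B → B ∈ G
  empty : (∅ : ZFSet.{0}) ∉ G
  comp : ∀ a ∈ kap, ∀ C ∈ E, FunOn C a → (∀ x ∈ a, ap C x ∈ G) →
    ZFSet.sep (fun y => ∀ x ∈ a, y ∈ ap C x) lam ∈ G

/-- `U` is a `kap`-complete ultrafilter on `lam` in `E`. -/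
structure UFk (E : Set ZFSet.{0}) (kap lam U : ZFSet.{0}) : Prop extends KFil E kap lam U where
  ultra : ∀ A ∈ E, A ⊆ lam → A ∈ U ∨ lam \ A ∈ U

/-- Every proper `kap`-complete filter on `lam` of `E` extends to a `kap`-complete ultrafilter. -/
def Ext (E : Set ZFSet.{0}) (kap lam : ZFSet.{0}) : Prop :=
  ∀ G, KFil E kap lam G → ∃ U, UFk E kap lam U ∧ G ⊆ U

/-- Weak normality: functions regressive on a set in `U` are bounded on a set in `U`. -/
def WN (E : Set ZFSet.{0}) (lam U : ZFSet.{0}) : Prop :=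
  ∀ f ∈ E, FunOn f lam → (∀ x ∈ lam, ap f x ∈ lam) → ZFSet.sep (fun y => ap f y ∈ y) lam ∈ U →
    ∃ b ∈ lam, ZFSet.sep (fun y => ap f y ∈ b) lam ∈ U

/-- The Galvin property in `E`: among `del` many sets in `U` there are `lam` many whose
intersection is in `U`. -/
def GalE (E : Set ZFSet.{0}) (lam del U : ZFSet.{0}) : Prop :=
  ∀ A ∈ E, FunOn A del → (∀ i ∈ del, ap A i ∈ U) →
    ∃ j ∈ E, FunOn j lam ∧ (∀ x ∈ lam, ap j x ∈ del) ∧
      (∀ x ∈ lam, ∀ y ∈ lam, ap j x = ap j y → x = y) ∧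
      ZFSet.sep (fun y => ∀ x ∈ lam, y ∈ ap A (ap j x)) lam ∈ U

/-- `C` is small: it is covered by an element of `kap`. -/
def Sm (E : Set ZFSet.{0}) (kap C : ZFSet.{0}) : Prop := ∃ a ∈ kap, Cov E a C

/-- The set of the small subsets of `b`. -/
noncomputable def SS (E : Set ZFSet.{0}) (kap b : ZFSet.{0}) : ZFSet.{0} :=
  ZFSet.sep (fun s => Sm E kap s) (pw E b)

/-- The set of the bounded subsets of `lam`. -/
noncomputable def BS (E : Set ZFSet.{0}) (lam : ZFSet.{0}) : ZFSet.{0} :=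
  ZFSet.sep (fun s => ∃ b ∈ lam, s ⊆ b) (pw E lam)

/-- The union of the `D a`, `a ∈ S`. -/
noncomputable def UO (lam D S : ZFSet.{0}) : ZFSet.{0} :=
  ZFSet.sep (fun y => ∃ a ∈ S, y ∈ ap D a) lam

/-- `Y` is decided by `A` modulo `F`. -/
def DcB (lam F Y A : ZFSet.{0}) : Prop := SubM lam F Y A ∨ SubM lam F Y (lam \ A)

/-- The set of the indices below `b` of members of `D` which decide `A`. -/
noncomputable def Dc (lam F D A b : ZFSet.{0}) : ZFSet.{0} :=
  ZFSet.sep (fun y => ∃ a ∈ b, DcB lam F (ap D a) A ∧ y ∈ ap D a) lam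

/-- `I` is a dense set of indices. -/
def DI (E : Set ZFSet.{0}) (lam F D I : ZFSet.{0}) : Prop :=
  ∀ P ∈ E, P ⊆ lam → Pos lam F P → ∃ a ∈ I, SubM lam F (ap D a) P

/-- The union of the `D a`, `a ∈ I ∩ b`. -/
noncomputable def Bl (lam D I b : ZFSet.{0}) : ZFSet.{0} :=
  ZFSet.sep (fun y => ∃ a ∈ b, a ∈ I ∧ y ∈ ap D a) lam

/-- `a` is a lower bound of the indices in `s`. -/
def LB (lam F D s a : ZFSet.{0}) : Prop := ∀ x ∈ s, SubM lam F (ap D a) (ap D x)

/-- The good bounds for `I`. -/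
def GB (E : Set ZFSet.{0}) (kap lam F D I g : ZFSet.{0}) : Prop :=
  ∀ s ∈ SS E kap lam, s ⊆ g → (∃ a ∈ lam, LB lam F D s a) →
    ∃ a ∈ g, LB lam F D s a ∧ a ∈ I

/-! ### Definability instances -/

section

variable {E : Set ZFSet.{0}} {n : ℕ} [hT : TZ E]

instance Df.instPos {l f a : (Fin n → ZFSet.{0}) → ZFSet.{0}} [hl : DfT E l] [hf : DfT E f]
    [ha : DfT E a] : Df E (fun v => Pos (l v) (f v) (a v)) := by
  have h : Df E (fun v => l v \ a v ∉ f v) := inferInstance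
  exact h

instance Df.instSubM {l f a b : (Fin n → ZFSet.{0}) → ZFSet.{0}} [hl : DfT E l] [hf : DfT E f]
    [ha : DfT E a] [hb : DfT E b] : Df E (fun v => SubM (l v) (f v) (a v) (b v)) := by
  have ha1 := ha.up
  have hb1 := hb.up
  have h : Df E (fun v => ZFSet.sep (fun x => x ∈ a v → x ∈ b v) (l v) ∈ f v) := inferInstance
  exact h

instance Df.instPowLe {a d : (Fin n → ZFSet.{0}) → ZFSet.{0}} [ha : DfT E a] [hd : DfT E d] :
    Df E (fun v => PowLe E (a v) (d v)) := by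
  have ha1 := ha.up
  have ha2 := ha1.up
  have hd1 := hd.up
  have hd2 := hd1.up
  have h : Df E (fun v => ∃ f ∈ E, FunOn f (d v) ∧ ∀ y ∈ E, y ⊆ a v → ∃ x ∈ d v,
    ZFSet.pair x y ∈ f) := inferInstance
  exact h

instance Df.instSm {k c : (Fin n → ZFSet.{0}) → ZFSet.{0}} [hk : DfT E k] [hc : DfT E c] :
    Df E (fun v => Sm E (k v) (c v)) := by
  have hc1 := hc.up
  have h : Df E (fun v => ∃ a ∈ k v, Cov E a (c v)) := inferInstance
  exact h

instance DfT.instSS {k b : (Fin n → ZFSet.{0}) → ZFSet.{0}} [hk : DfT E k] [hb : DfT E b] :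
    DfT E (fun v => SS E (k v) (b v)) := by
  have hk1 := hk.up
  have h : DfT E (fun v => ZFSet.sep (fun s => Sm E (k v) s) (pw E (b v))) := inferInstance
  exact h

instance DfT.instBS {l : (Fin n → ZFSet.{0}) → ZFSet.{0}} [hl : DfT E l] :
    DfT E (fun v => BS E (l v)) := by
  have hl1 := hl.up
  have h : DfT E (fun v => ZFSet.sep (fun s => ∃ b ∈ l v, s ⊆ b) (pw E (l v))) := inferInstance
  exact h

instance DfT.instUO {l d s : (Fin n → ZFSet.{0}) → ZFSet.{0}} [hl : DfT E l] [hd : DfT E d]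
    [hs : DfT E s] : DfT E (fun v => UO (l v) (d v) (s v)) := by
  have hd1 := hd.up
  have hd2 := hd1.up
  have hs1 := hs.up
  have h : DfT E (fun v => ZFSet.sep (fun y => ∃ a ∈ s v, y ∈ ap (d v) a) (l v)) := inferInstance
  exact h

instance Df.instDcB {l f y a : (Fin n → ZFSet.{0}) → ZFSet.{0}} [hl : DfT E l] [hf : DfT E f]
    [hy : DfT E y] [ha : DfT E a] : Df E (fun v => DcB (l v) (f v) (y v) (a v)) := by
  have h : Df E (fun v => SubM (l v) (f v) (y v) (a v) ∨ SubM (l v) (f v) (y v) (l v \ a v)) :=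
    inferInstance
  exact h

instance DfT.instDc {l f d a b : (Fin n → ZFSet.{0}) → ZFSet.{0}} [hl : DfT E l] [hf : DfT E f]
    [hd : DfT E d] [ha : DfT E a] [hb : DfT E b] :
    DfT E (fun v => Dc (l v) (f v) (d v) (a v) (b v)) := by
  have hl1 := hl.up
  have hl2 := hl1.up
  have hf1 := hf.up
  have hf2 := hf1.up
  have hd1 := hd.up
  have hd2 := hd1.up
  have ha1 := ha.up
  have ha2 := ha1.up
  have hb1 := hb.up
  have h : DfT E (fun v => ZFSet.sep (fun y => ∃ i ∈ b v, DcB (l v) (f v) (ap (d v) i) (a v) ∧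
    y ∈ ap (d v) i) (l v)) := inferInstance
  exact h

instance Df.instDI {l f d i : (Fin n → ZFSet.{0}) → ZFSet.{0}} [hl : DfT E l] [hf : DfT E f]
    [hd : DfT E d] [hi : DfT E i] : Df E (fun v => DI E (l v) (f v) (d v) (i v)) := by
  have hl1 := hl.up
  have hl2 := hl1.up
  have hf1 := hf.up
  have hf2 := hf1.up
  have hd1 := hd.up
  have hd2 := hd1.up
  have hi1 := hi.up
  have h : Df E (fun v => ∀ P ∈ E, P ⊆ l v → Pos (l v) (f v) P → ∃ a ∈ i v,
    SubM (l v) (f v) (ap (d v) a) P) := inferInstance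
  exact h

instance DfT.instBl {l d i b : (Fin n → ZFSet.{0}) → ZFSet.{0}} [hl : DfT E l] [hd : DfT E d]
    [hi : DfT E i] [hb : DfT E b] : DfT E (fun v => Bl (l v) (d v) (i v) (b v)) := by
  have hd1 := hd.up
  have hd2 := hd1.up
  have hi1 := hi.up
  have hi2 := hi1.up
  have hb1 := hb.up
  have h : DfT E (fun v => ZFSet.sep (fun y => ∃ a ∈ b v, a ∈ i v ∧ y ∈ ap (d v) a) (l v)) :=
    inferInstance
  exact h

instance Df.instLB {l f d s a : (Fin n → ZFSet.{0}) → ZFSet.{0}} [hl : DfT E l] [hf : DfT E f]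
    [hd : DfT E d] [hs : DfT E s] [ha : DfT E a] :
    Df E (fun v => LB (l v) (f v) (d v) (s v) (a v)) := by
  have hl1 := hl.up
  have hf1 := hf.up
  have hd1 := hd.up
  have ha1 := ha.up
  have h : Df E (fun v => ∀ x ∈ s v, SubM (l v) (f v) (ap (d v) (a v)) (ap (d v) x)) :=
    inferInstance
  exact h

instance Df.instGB {k l f d i g : (Fin n → ZFSet.{0}) → ZFSet.{0}} [hk : DfT E k] [hl : DfT E l]
    [hf : DfT E f] [hd : DfT E d] [hi : DfT E i] [hg : DfT E g] :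
    Df E (fun v => GB E (k v) (l v) (f v) (d v) (i v) (g v)) := by
  have hk1 := hk.up
  have hl1 := hl.up
  have hl2 := hl1.up
  have hf1 := hf.up
  have hf2 := hf1.up
  have hd1 := hd.up
  have hd2 := hd1.up
  have hi1 := hi.up
  have hi2 := hi1.up
  have hg1 := hg.up
  have h : Df E (fun v => ∀ s ∈ SS E (k v) (l v), s ⊆ g v → (∃ a ∈ l v, LB (l v) (f v) (d v) s a) →
    ∃ a ∈ g v, LB (l v) (f v) (d v) s a ∧ a ∈ i v) := inferInstance
  exact h

end

end Pool.GE
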