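import Pool.Agent.Lib.MP_cc7fb1_ge.GDef

/-!
# GE: basic tools: the model, ordinals, domain, range, least element
-/

set_option autoImplicit false
set_option linter.unusedVariables false

open Set

namespace Pool.GE

open Pool.MP_3ade05_lc Pool.PC Pool.UL Pool.UT

variable {E : Set ZFSet.{0}} {kap lam del : ZFSet.{0}}

namespace GS

theorem tc (h : GS E kap lam del) : TC E where
  trans := h.trans
  zf := h.zfc.toZFModel
  choice := h.zfc.choice

lemma kE (h : GS E kap lam del) : kap ∈ E := h.kap_card.mem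
lemma lE (h : GS E kap lam del) : lam ∈ E := h.lam_card.mem
lemma dE (h : GS E kap lam del) : del ∈ E := h.del_card.mem

lemma kap_sub (h : GS E kap lam del) : kap ⊆ lam := h.lam_card.ord.subset_of_mem h.kap_lam
lemma lam_sub (h : GS E kap lam del) : lam ⊆ del := h.del_card.ord.subset_of_mem h.lam_del

lemma mem_kE (h : GS E kap lam del) {a : ZFSet.{0}} (ha : a ∈ kap) : a ∈ E := h.trans _ h.kE _ ha
lemma mem_lE (h : GS E kap lam del) {a : ZFSet.{0}} (ha : a ∈ lam) : a ∈ E := h.trans _ h.lE _ ha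
lemma mem_dE (h : GS E kap lam del) {a : ZFSet.{0}} (ha : a ∈ del) : a ∈ E := h.trans _ h.dE _ ha

lemma ord_k (h : GS E kap lam del) {a : ZFSet.{0}} (ha : a ∈ kap) : a.IsOrdinal :=
  h.kap_card.ord.mem ha

lemma ord_l (h : GS E kap lam del) {a : ZFSet.{0}} (ha : a ∈ lam) : a.IsOrdinal :=
  h.lam_card.ord.mem ha

lemma ord_d (h : GS E kap lam del) {a : ZFSet.{0}} (ha : a ∈ del) : a.IsOrdinal :=
  h.del_card.ord.mem ha

lemma sub_l (h : GS E kap lam del) {a : ZFSet.{0}} (ha : a ∈ lam) : a ⊆ lam :=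
  h.lam_card.ord.subset_of_mem ha

lemma sub_k (h : GS E kap lam del) {a : ZFSet.{0}} (ha : a ∈ kap) : a ⊆ kap :=
  h.kap_card.ord.subset_of_mem ha

lemma omE (h : GS E kap lam del) : ZFSet.omega ∈ E := h.mem_kE h.om

lemma empty_k (h : GS E kap lam del) : (∅ : ZFSet.{0}) ∈ kap :=
  h.kap_card.inf ZFSet.omega_zero

lemma empty_l (h : GS E kap lam del) : (∅ : ZFSet.{0}) ∈ lam := h.kap_sub h.empty_k

lemma emptyE (h : GS E kap lam del) : (∅ : ZFSet.{0}) ∈ E := h.mem_kE h.empty_k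

end GS

/-! ### Ordinals -/

/-- Comparison of ordinals. -/
lemma ord_lt_or_le {a b : ZFSet.{0}} (ha : a.IsOrdinal) (hb : b.IsOrdinal) : a ∈ b ∨ b ⊆ a := by
  rcases ha.mem_trichotomous hb with h | h | h
  · exact Or.inl h
  · exact Or.inr (h ▸ fun x hx => hx)
  · exact Or.inr (ha.subset_of_mem h)

lemma ord_sub_iff {a b : ZFSet.{0}} (ha : a.IsOrdinal) (hb : b.IsOrdinal) :
    a ⊆ b ↔ a ∈ b ∨ a = b := by
  constructor
  · intro h
    rcases ha.mem_trichotomous hb with h1 | h1 | h1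
    · exact Or.inl h1
    · exact Or.inr h1
    · exact absurd (h h1) (ZFSet.mem_irrefl b)
  · rintro (h | h)
    · exact hb.subset_of_mem h
    · exact h ▸ fun x hx => hx

/-- `a ⊆ b ∈ c`, `c` an ordinal. -/
lemma ord_of_sub_mem {a b c : ZFSet.{0}} (ha : a.IsOrdinal) (hc : c.IsOrdinal) (hab : a ⊆ b)
    (hb : b ∈ c) : a ∈ c := by
  rcases (ord_sub_iff ha (hc.mem hb)).1 hab with h | h
  · exact hc.subset_of_mem hb h
  · exact h ▸ hb

/-- The least element of a set of ordinals. -/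
noncomputable def lst (S : ZFSet.{0}) : ZFSet.{0} :=
  ZFSet.sep (fun z => ∀ y ∈ S, z ∈ y) (ZFSet.sUnion S)

lemma lst_spec {S : ZFSet.{0}} (hS : ∀ x ∈ S, x.IsOrdinal) (hne : ∃ x, x ∈ S) :
    lst S ∈ S ∧ ∀ y ∈ S, lst S ⊆ y := by
  obtain ⟨x, hx⟩ := hne
  obtain ⟨m, hm, hmin⟩ := ZFSet.mem_wf.has_min {x | x ∈ S} ⟨x, hx⟩
  have h1 : ∀ y ∈ S, m ⊆ y := by
    intro y hy
    rcases ord_lt_or_le (hS y hy) (hS m hm) with h | h
    · exact absurd h (hmin y hy)
    · exact h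
  have h2 : lst S = m := by
    ext z
    unfold lst
    rw [ZFSet.mem_sep, ZFSet.mem_sUnion]
    constructor
    · rintro ⟨_, h⟩
      exact h m hm
    · intro hz
      exact ⟨⟨m, hm, hz⟩, fun y hy => h1 y hy hz⟩
  rw [h2]
  exact ⟨hm, h1⟩

lemma lst_empty : lst (∅ : ZFSet.{0}) = ∅ := by
  ext z
  unfold lst
  rw [ZFSet.mem_sep, ZFSet.mem_sUnion]
  simp

/-- `lst S ∈ c` for `S ⊆ c`, `c` a nonempty ordinal. -/
lemma lst_mem {S c : ZFSet.{0}} (hc : c.IsOrdinal) (h0 : (∅ : ZFSet.{0}) ∈ c) (hS : S ⊆ c) :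
    lst S ∈ c := by
  by_cases hne : ∃ x, x ∈ S
  · exact hS (lst_spec (fun x hx => hc.mem (hS hx)) hne).1
  · have h1 : S = ∅ := by
      rw [ZFSet.eq_empty]
      exact fun x hx => hne ⟨x, hx⟩
    rw [h1, lst_empty]
    exact h0

/-! ### Domain and range of a function -/

/-- The domain of `f`. -/
noncomputable def dmn (f : ZFSet.{0}) : ZFSet.{0} :=
  ZFSet.sep (fun x => ∃ y ∈ ZFSet.sUnion (ZFSet.sUnion f), ZFSet.pair x y ∈ f)
    (ZFSet.sUnion (ZFSet.sUnion f))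

lemma dmn_eq {f a : ZFSet.{0}} (hf : FunOn f a) : dmn f = a := by
  ext x
  unfold dmn
  rw [ZFSet.mem_sep]
  constructor
  · rintro ⟨_, y, _, hy⟩
    exact FunOn.dom hf hy
  · intro hx
    have h1 := FunOn.ap_mem hf hx
    exact ⟨(mem_uu h1).1, _, (mem_uu h1).2, h1⟩

/-- The range of `f`. -/
noncomputable def rng (f : ZFSet.{0}) : ZFSet.{0} := im f (dmn f)

lemma mem_rng {f a y : ZFSet.{0}} (hf : FunOn f a) : y ∈ rng f ↔ ∃ x ∈ a, ap f x = y := by
  unfold rng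
  rw [dmn_eq hf, FunOn.mem_im hf (fun x hx => hx)]

section

variable {n : ℕ} [hT : TZ E]

instance DfT.instLst {s : (Fin n → ZFSet.{0}) → ZFSet.{0}} [hs : DfT E s] :
    DfT E (fun v => lst (s v)) := by
  have hs1 := hs.up
  have h : DfT E (fun v => ZFSet.sep (fun z => ∀ y ∈ s v, z ∈ y) (ZFSet.sUnion (s v))) :=
    inferInstance
  exact h

instance DfT.instDmn {s : (Fin n → ZFSet.{0}) → ZFSet.{0}} [hs : DfT E s] :
    DfT E (fun v => dmn (s v)) := by
  have hs1 := hs.up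
  have hs2 := hs1.up
  have h : DfT E (fun v => ZFSet.sep (fun x => ∃ y ∈ ZFSet.sUnion (ZFSet.sUnion (s v)),
    ZFSet.pair x y ∈ s v) (ZFSet.sUnion (ZFSet.sUnion (s v)))) := inferInstance
  exact h

instance DfT.instRng {s : (Fin n → ZFSet.{0}) → ZFSet.{0}} [hs : DfT E s] :
    DfT E (fun v => rng (s v)) := by
  have h : DfT E (fun v => im (s v) (dmn (s v))) := inferInstance
  exact h

lemma dmn_memE {f : ZFSet.{0}} (hf : f ∈ E) : dmn f ∈ E := by
  haveI : InE E f := ⟨hf⟩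
  exact mem_of (E := E) (dmn f)

lemma rng_memE {f : ZFSet.{0}} (hf : f ∈ E) : rng f ∈ E := by
  haveI : InE E f := ⟨hf⟩
  exact mem_of (E := E) (rng f)

omit hT in
/-- The range of a function with domain `a` is covered by `a`. -/
lemma cov_rng {f a : ZFSet.{0}} (hf : f ∈ E) (h : FunOn f a) : Cov E a (rng f) :=
  ⟨f, hf, h, fun y hy => by
    obtain ⟨x, hx, hxy⟩ := (mem_rng h).1 hy
    exact ⟨x, hx, (FunOn.ap_eq h hx).2 hxy⟩⟩

/-- The domain of a function of `E` is in `E`. -/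
lemma dom_memE {f a : ZFSet.{0}} (hf : f ∈ E) (h : FunOn f a) : a ∈ E := by
  have := dmn_memE hf
  rwa [dmn_eq h] at this

end

/-- A function on `b` composed with one on `a`. -/
noncomputable def cmp (f g a : ZFSet.{0}) : ZFSet.{0} := mkF (fun x => ap f (ap g x)) a

lemma cmp_fn (f g a : ZFSet.{0}) : FunOn (cmp f g a) a := FunOn_mkF _ _

lemma ap_cmp {f g a x : ZFSet.{0}} (hx : x ∈ a) : ap (cmp f g a) x = ap f (ap g x) := ap_mkF hx

lemma cmp_mem [hT : TZ E] {f g a : ZFSet.{0}} (hf : f ∈ E) (hg : g ∈ E) (ha : a ∈ E) :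
    cmp f g a ∈ E := by
  haveI : InE E f := ⟨hf⟩
  haveI : InE E g := ⟨hg⟩
  haveI : InE E a := ⟨ha⟩
  exact mem_of (E := E) (mkF (fun x => ap f (ap g x)) a)

end Pool.GE
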