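import Pool.Agent.Lib.MP_cc7fb1_ge.GA7

/-!
# GE, row B7: Fodor
-/

set_option autoImplicit false
set_option linter.unusedVariables false

open Set

namespace Pool.GE

open Pool.MP_3ade05_lc Pool.PC Pool.UL Pool.UT

variable {E : Set ZFSet.{0}} {kap lam del F D : ZFSet.{0}}

/-- Row B7: a regressive function on a positive set has a positive fibre.  Otherwise `diag` for
`b ↦ lam \ ZFSet.sep (fun y => ap f y = b) P`. -/
theorem NF.fodor (h : GS E kap lam del) (hF : NF E lam F) {P f : ZFSet.{0}} (hP : P ∈ E)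
    (hPl : P ⊆ lam) (hpos : Pos lam F P) (hf : f ∈ E) (hfl : FunOn f lam)
    (hr : ∀ y ∈ P, ap f y ∈ y) :
    ∃ b ∈ lam, Pos lam F (ZFSet.sep (fun y => ap f y = b) P) := by
  haveI := h.tc
  haveI : InE E P := ⟨hP⟩
  haveI : InE E f := ⟨hf⟩
  haveI : InE E lam := ⟨h.lE⟩
  by_contra hne
  have hne' : ∀ b ∈ lam, lam \ ZFSet.sep (fun y => ap f y = b) P ∈ F := by
    intro b hb
    by_contra hb'
    exact hne ⟨b, hb, hb'⟩
  have hC : mkF (fun b => lam \ ZFSet.sep (fun y => ap f y = b) P) lam ∈ E :=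
    mem_of (E := E) (mkF (fun b => lam \ ZFSet.sep (fun y => ap f y = b) P) lam)
  have hS := hF.diag _ hC (FunOn_mkF _ _) (fun x hx => by
    rw [ap_mkF hx]
    exact hne' x hx)
  have hlP : lam \ P ∈ E := mem_of (E := E) (lam \ P)
  refine hpos (hF.up _ hS _ hlP ?_ ?_)
  · intro z hz
    exact (ZFSet.mem_sdiff.1 hz).1
  · intro z hz
    rw [ZFSet.mem_sep] at hz
    rw [ZFSet.mem_sdiff]
    refine ⟨hz.1, fun hzP => ?_⟩
    have hz1 : ap f z ∈ z := hr z hzP
    have hz2 : ap f z ∈ lam := h.lam_card.ord.mem_trans hz1 hz.1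
    have hz3 := hz.2 _ hz1
    rw [ap_mkF hz2, ZFSet.mem_sdiff] at hz3
    exact hz3.2 (ZFSet.mem_sep.2 ⟨hzP, rfl⟩)

end Pool.GE
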