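import Pool.Agent.Lib.MP_cc7fb1_ge.GA1

/-!
# GE, row A2: a normal filter is `lam`-complete
-/

set_option autoImplicit false
set_option linter.unusedVariables false

open Set

namespace Pool.GE

open Pool.MP_3ade05_lc Pool.PC Pool.UL Pool.UT

variable {E : Set ZFSet.{0}} {kap lam del F D : ZFSet.{0}}

/-- Row A2.  `g : kap → r` onto (`Cov`); apply `diag` to `C' x = ap C (ap g x)` if `x ∈ kap` and
`ap g x ∈ r`, `C' x = lam` otherwise (as the term `ZFSet.sep (fun y => x ∈ kap → ap g x ∈ r →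
y ∈ ap C (ap g x)) lam`), intersect with `final kap`. -/
theorem NF.comp (h : GS E kap lam del) (hF : NF E lam F) {r C : ZFSet.{0}} (hr : r ∈ E)
    (hc : Cov E kap r) (hC : C ∈ E) (hCr : FunOn C r) (hv : ∀ x ∈ r, ap C x ∈ F) :
    ZFSet.sep (fun y => ∀ x ∈ r, y ∈ ap C x) lam ∈ F := by
  haveI := h.tc
  obtain ⟨g, hg, hgf, hgr⟩ := hc
  haveI : InE E g := ⟨hg⟩
  haveI : InE E r := ⟨hr⟩
  haveI : InE E C := ⟨hC⟩
  haveI : InE E kap := ⟨h.kE⟩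
  haveI : InE E lam := ⟨h.lE⟩
  have hCE : mkF (fun x => ZFSet.sep (fun y => x ∈ kap → ap g x ∈ r → y ∈ ap C (ap g x)) lam) lam
      ∈ E :=
    mem_of (E := E) (mkF (fun x => ZFSet.sep (fun y => x ∈ kap → ap g x ∈ r →
      y ∈ ap C (ap g x)) lam) lam)
  have h1 := hF.diag _ hCE (FunOn_mkF _ _) (by
    intro x hx
    rw [ap_mkF hx]
    haveI : InE E x := ⟨h.mem_lE hx⟩
    have hE : ZFSet.sep (fun y => x ∈ kap → ap g x ∈ r → y ∈ ap C (ap g x)) lam ∈ E :=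
      mem_of (E := E) (ZFSet.sep (fun y => x ∈ kap → ap g x ∈ r → y ∈ ap C (ap g x)) lam)
    have hsub : ZFSet.sep (fun y => x ∈ kap → ap g x ∈ r → y ∈ ap C (ap g x)) lam ⊆ lam :=
      fun z hz => (ZFSet.mem_sep.1 hz).1
    by_cases hxr : ap g x ∈ r
    · refine hF.up _ (hv _ hxr) _ hE hsub ?_
      intro z hz
      exact ZFSet.mem_sep.2 ⟨hF.sub _ (hv _ hxr) hz, fun _ _ => hz⟩
    · refine hF.up _ (hF.final _ h.empty_l) _ hE hsub ?_
      intro z hz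
      exact ZFSet.mem_sep.2 ⟨(ZFSet.mem_sep.1 hz).1, fun _ h2 => absurd h2 hxr⟩)
  have h2 := hF.inter _ h1 _ (hF.final _ h.kap_lam)
  have hE : ZFSet.sep (fun y => ∀ x ∈ r, y ∈ ap C x) lam ∈ E :=
    mem_of (E := E) (ZFSet.sep (fun y => ∀ x ∈ r, y ∈ ap C x) lam)
  refine hF.up _ h2 _ hE (fun z hz => (ZFSet.mem_sep.1 hz).1) ?_
  intro y hy
  obtain ⟨hy1, hy2⟩ := ZFSet.mem_inter.1 hy
  obtain ⟨hyl, hy1⟩ := ZFSet.mem_sep.1 hy1
  obtain ⟨_, hy2⟩ := ZFSet.mem_sep.1 hy2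
  refine ZFSet.mem_sep.2 ⟨hyl, fun x hx => ?_⟩
  obtain ⟨z, hz, hzx⟩ := hgr x hx
  have hzx' : ap g z = x := (FunOn.ap_eq hgf hz).1 hzx
  have hzy : z ∈ y := (h.ord_l hyl).subset_of_mem hy2 hz
  have h3 := hy1 z hzy
  rw [ap_mkF (h.kap_sub hz)] at h3
  have h4 := (ZFSet.mem_sep.1 h3).2 hz
  rw [hzx'] at h4
  exact h4 hx

/-- The same for a definable family (`mkF C r`). -/
theorem NF.compD (h : GS E kap lam del) (hF : NF E lam F) {r : ZFSet.{0}} (hr : r ∈ E)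
    (hc : Cov E kap r) (C : ZFSet.{0} → ZFSet.{0})
    [hC : DfT E (fun v : Fin 1 → ZFSet.{0} => C (v 0))] (hv : ∀ x ∈ r, C x ∈ F) :
    ZFSet.sep (fun y => ∀ x ∈ r, y ∈ C x) lam ∈ F := by
  haveI := h.tc
  have hCE : mkF C r ∈ E :=
    mkF_mem C (hF := hC.graph) hr (fun x hx => h.trans _ hF.mem _ (hv x hx))
  have h1 := NF.comp h hF hr hc hCE (FunOn_mkF C r) (by
    intro x hx
    rw [ap_mkF hx]
    exact hv x hx)
  have h2 : ZFSet.sep (fun y => ∀ x ∈ r, y ∈ ap (mkF C r) x) lam =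
      ZFSet.sep (fun y => ∀ x ∈ r, y ∈ C x) lam := by
    ext y
    rw [ZFSet.mem_sep, ZFSet.mem_sep]
    refine and_congr_right fun _ => forall₂_congr fun x hx => ?_
    rw [ap_mkF hx]
  rw [← h2]
  exact h1

end Pool.GE
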