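import Pool.Agent.Lib.MP_cc7fb1_ge.GB6
import Pool.Agent.Lib.MP_cc7fb1_ge.GA2
import Pool.Agent.Lib.MP_9fc97b_ut.TB4

/-!
# GE, row B8: the filter generated by `F` and the sets `Bl`
-/

set_option autoImplicit false
set_option linter.unusedVariables false

open Set

namespace Pool.GE

open Pool.MP_3ade05_lc Pool.PC Pool.UL Pool.UT

variable {E : Set ZFSet.{0}} {kap lam del F D : ZFSet.{0}}

/-- The filter generated by `F` and the sets `Bl lam D I (ap gam I)`, `I ∈ T`. -/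
noncomputable def GG (E : Set ZFSet.{0}) (kap lam F D T gam : ZFSet.{0}) : ZFSet.{0} :=
  ZFSet.sep (fun X => ∃ S ∈ SS E kap T, ∃ B ∈ F,
    ZFSet.sep (fun y => ∀ I ∈ S, y ∈ Bl lam D I (ap gam I)) B ⊆ X) (pw E lam)

/-- The hypotheses on `T` and `gam`. -/
structure TG (E : Set ZFSet.{0}) (kap lam F D T gam : ZFSet.{0}) : Prop where
  TE : T ∈ E
  TI : ∀ I ∈ T, I ∈ pw E lam
  gE : gam ∈ E
  fn : FunOn gam T
  lt : ∀ I ∈ T, ap gam I ∈ lam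
  gb : ∀ I ∈ T, GB E kap lam F D I (ap gam I)

/-- Row B8: `GG` is in `E`. -/
lemma GG_mem (h : GS E kap lam del) (hF : NF E lam F) (hD : DF E lam F D) {T gam : ZFSet.{0}}
    (hT : TG E kap lam F D T gam) : GG E kap lam F D T gam ∈ E := by
  haveI := h.tc
  haveI : InE E kap := ⟨h.kE⟩
  haveI : InE E lam := ⟨h.lE⟩
  haveI : InE E F := ⟨hF.mem⟩
  haveI : InE E D := ⟨hD.mem⟩
  haveI : InE E T := ⟨hT.TE⟩
  haveI : InE E gam := ⟨hT.gE⟩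
  exact mem_of (E := E) (ZFSet.sep (fun X => ∃ S ∈ SS E kap T, ∃ B ∈ F,
    ZFSet.sep (fun y => ∀ I ∈ S, y ∈ Bl lam D I (ap gam I)) B ⊆ X) (pw E lam))

/-- Membership in `SS`. -/
lemma GG_mem_SS {b s : ZFSet.{0}} : s ∈ SS E kap b ↔ (s ∈ E ∧ s ⊆ b) ∧ Sm E kap s := by
  unfold SS
  rw [ZFSet.mem_sep, mem_pw]

/-- `Bl` is in `E`. -/
lemma GG_Bl_mem (h : GS E kap lam del) (hD : D ∈ E) {I b : ZFSet.{0}} (hI : I ∈ E) (hb : b ∈ E) :
    Bl lam D I b ∈ E := by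
  haveI := h.tc
  haveI : InE E lam := ⟨h.lE⟩
  haveI : InE E D := ⟨hD⟩
  haveI : InE E I := ⟨hI⟩
  haveI : InE E b := ⟨hb⟩
  exact mem_of (E := E) (Bl lam D I b)

/-- Row B8: `GG` is proper.  Given `S`, `B` with the set empty: if `S` is empty then `B = ∅`.
Otherwise `S = rng I` for some `I : a → S` in `E`, `a ∈ kap` (`Cov.onto`); `common` for `I` and
`cmp gam I a` gives `d`; `NF.comp`/`compD` for the index set `S` and the sets
`ZFSet.sep (fun x => x ∈ ap D d → x ∈ Bl lam D I (ap gam I)) lam`; contradiction to `DF.pos`. -/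
theorem GG_empty (h : GS E kap lam del) (hF : NF E lam F) (hD : DF E lam F D)
    (hcl : DescCl E kap lam F D) {T gam : ZFSet.{0}} (hT : TG E kap lam F D T gam) :
    (∅ : ZFSet.{0}) ∉ GG E kap lam F D T gam := by
  intro h0
  haveI := h.tc
  haveI : InE E kap := ⟨h.kE⟩
  haveI : InE E lam := ⟨h.lE⟩
  haveI : InE E F := ⟨hF.mem⟩
  haveI : InE E D := ⟨hD.mem⟩
  haveI : InE E gam := ⟨hT.gE⟩
  obtain ⟨_, S, hS, B, hB, h1⟩ := ZFSet.mem_sep.1 h0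
  obtain ⟨⟨hSE, hST⟩, hSm⟩ := GG_mem_SS.1 hS
  by_cases hne : ∃ J, J ∈ S
  · obtain ⟨a, ha, hcov⟩ := id hSm
    obtain ⟨f, hf, hfa, hfv, hfo⟩ := Cov.onto (h.mem_kE ha) hSE hne hcov
    obtain ⟨d, hd, hd1⟩ := common h hF hD hcl ha hf hfa (cmp_mem hT.gE hf (h.mem_kE ha))
      (cmp_fn gam f a) (fun x hx => by
        rw [ap_cmp hx]
        exact hT.lt _ (hST (hfv x hx))) (fun x hx => by
        rw [ap_cmp hx]
        exact hT.gb _ (hST (hfv x hx)))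
    haveI : InE E d := ⟨h.mem_lE hd⟩
    have h2 : ∀ J ∈ S, ZFSet.sep (fun x => x ∈ ap D d → x ∈ Bl lam D J (ap gam J)) lam ∈ F := by
      intro J hJ
      obtain ⟨x, hx, rfl⟩ := hfo J hJ
      have h3 := hd1 x hx
      rw [ap_cmp hx] at h3
      exact h3
    have h3 := NF.compD h hF hSE (h.sm_cov hSm)
      (fun J => ZFSet.sep (fun x => x ∈ ap D d → x ∈ Bl lam D J (ap gam J)) lam) h2
    have h4 := hF.inter _ h3 _ hB
    refine hD.pos d hd (hF.up _ h4 _ (mem_of (E := E) (lam \ ap D d)) (fun x hx =>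
      (ZFSet.mem_sdiff.1 hx).1) fun x hx => ?_)
    obtain ⟨hx1, hx2⟩ := ZFSet.mem_inter.1 hx
    obtain ⟨hx3, hx4⟩ := ZFSet.mem_sep.1 hx1
    refine ZFSet.mem_sdiff.2 ⟨hx3, fun hxd => ?_⟩
    refine ZFSet.notMem_empty x (h1 (ZFSet.mem_sep.2 ⟨hx2, fun J hJ => ?_⟩))
    exact (ZFSet.mem_sep.1 (hx4 J hJ)).2 hxd
  · have h2 : B = ∅ := by
      rw [ZFSet.eq_empty]
      intro x hx
      exact ZFSet.notMem_empty x (h1 (ZFSet.mem_sep.2 ⟨hx, fun J hJ => absurd ⟨J, hJ⟩ hne⟩))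
    exact hF.empty (h2 ▸ hB)

/-- Row B8: `GG` is complete.  For `C : a → GG` choose (`choose_fun`) `S_x ∈ SS E kap T` and
`B_x ∈ F`; take the union of the `S_x` (`union_sm`) and the intersection of the `B_x` (`NF.comp`,
`lam_cov`). -/
theorem GG_comp (h : GS E kap lam del) (hF : NF E lam F) (hD : DF E lam F D) {T gam : ZFSet.{0}}
    (hT : TG E kap lam F D T gam) {a C : ZFSet.{0}} (ha : a ∈ kap) (hC : C ∈ E)
    (hCa : FunOn C a) (hv : ∀ x ∈ a, ap C x ∈ GG E kap lam F D T gam) :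
    ZFSet.sep (fun y => ∀ x ∈ a, y ∈ ap C x) lam ∈ GG E kap lam F D T gam := by
  haveI := h.tc
  haveI : InE E kap := ⟨h.kE⟩
  haveI : InE E lam := ⟨h.lE⟩
  haveI : InE E F := ⟨hF.mem⟩
  haveI : InE E D := ⟨hD.mem⟩
  haveI : InE E T := ⟨hT.TE⟩
  haveI : InE E gam := ⟨hT.gE⟩
  haveI : InE E C := ⟨hC⟩
  have haE := h.mem_kE ha
  haveI : InE E a := ⟨haE⟩
  obtain ⟨f, hf, hfa, hfv⟩ := choose_fun (E := E) (fun x S => ∃ B ∈ F,
    ZFSet.sep (fun y => ∀ I ∈ S, y ∈ Bl lam D I (ap gam I)) B ⊆ ap C x) haE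
    (mem_of (E := E) (SS E kap T)) (fun x hx => (ZFSet.mem_sep.1 (hv x hx)).2)
  haveI : InE E f := ⟨hf⟩
  obtain ⟨g, hg, hga, hgv⟩ := choose_fun (E := E) (fun x B =>
    ZFSet.sep (fun y => ∀ I ∈ ap f x, y ∈ Bl lam D I (ap gam I)) B ⊆ ap C x) haE
    hF.mem (fun x hx => (hfv x hx).2)
  haveI : InE E g := ⟨hg⟩
  have hSE : ZFSet.sep (fun I => ∃ x ∈ a, I ∈ ap f x) T ∈ E :=
    mem_of (E := E) (ZFSet.sep (fun I => ∃ x ∈ a, I ∈ ap f x) T)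
  have hSm : Sm E kap (ZFSet.sep (fun I => ∃ x ∈ a, I ∈ ap f x) T) :=
    h.union_sm ha (fun x => ap f x) (fun x hx => (GG_mem_SS.1 (hfv x hx).1).2) hSE
      (fun y hy => (ZFSet.mem_sep.1 hy).2)
  have hBF : ZFSet.sep (fun y => ∀ x ∈ a, y ∈ ap g x) lam ∈ F :=
    NF.comp h hF haE (cov_id h.kE (h.sub_k ha)) hg hga (fun x hx => (hgv x hx).1)
  refine ZFSet.mem_sep.2 ⟨mem_pw.2 ⟨mem_of (E := E) (ZFSet.sep (fun y => ∀ x ∈ a, y ∈ ap C x) lam),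
    fun y hy => (ZFSet.mem_sep.1 hy).1⟩, _,
    GG_mem_SS.2 ⟨⟨hSE, fun y hy => (ZFSet.mem_sep.1 hy).1⟩, hSm⟩, _, hBF, fun y hy => ?_⟩
  obtain ⟨hy1, hy2⟩ := ZFSet.mem_sep.1 hy
  obtain ⟨hy3, hy4⟩ := ZFSet.mem_sep.1 hy1
  refine ZFSet.mem_sep.2 ⟨hy3, fun x hx => (hgv x hx).2 (ZFSet.mem_sep.2 ⟨hy4 x hx,
    fun I hI => hy2 I (ZFSet.mem_sep.2 ⟨(GG_mem_SS.1 (hfv x hx).1).1.2 hI, x, hx, hI⟩)⟩)⟩

/-- Row B8: the generators. -/
lemma GG_gen (h : GS E kap lam del) (hF : NF E lam F) (hD : DF E lam F D) {T gam : ZFSet.{0}}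
    (hT : TG E kap lam F D T gam) :
    F ⊆ GG E kap lam F D T gam ∧ ∀ I ∈ T, Bl lam D I (ap gam I) ∈ GG E kap lam F D T gam := by
  haveI := h.tc
  constructor
  · intro B hB
    have h1 : (∅ : ZFSet.{0}) ∈ SS E kap T :=
      GG_mem_SS.2 ⟨⟨h.emptyE, fun x hx => absurd hx (ZFSet.notMem_empty x)⟩, ∅, h.empty_k,
        cov_id h.emptyE (fun x hx => hx)⟩
    exact ZFSet.mem_sep.2 ⟨mem_pw.2 ⟨h.trans _ hF.mem _ hB, hF.sub B hB⟩, ∅, h1, B, hB,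
      fun y hy => (ZFSet.mem_sep.1 hy).1⟩
  · intro I hI
    have hIE : I ∈ E := h.trans _ hT.TE _ hI
    haveI : InE E I := ⟨hIE⟩
    have hsE : ({I} : ZFSet.{0}) ∈ E := mem_of (E := E) ({I} : ZFSet.{0})
    have h0 : insert (∅ : ZFSet.{0}) ∅ ∈ kap := h.suc_k h.empty_k
    have h0E := h.mem_kE h0
    haveI : InE E (insert (∅ : ZFSet.{0}) ∅) := ⟨h0E⟩
    have hSm : Sm E kap ({I} : ZFSet.{0}) := by
      refine ⟨_, h0, mkF (fun _ => I) (insert (∅ : ZFSet.{0}) ∅),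
        mem_of (E := E) (mkF (fun _ => I) (insert (∅ : ZFSet.{0}) ∅)), FunOn_mkF _ _,
        fun y hy => ⟨∅, ZFSet.mem_insert_iff.2 (Or.inl rfl), ?_⟩⟩
      rw [ZFSet.mem_singleton.1 hy]
      exact pair_mem_mkF.2 ⟨ZFSet.mem_insert_iff.2 (Or.inl rfl), rfl⟩
    have h1 : ({I} : ZFSet.{0}) ∈ SS E kap T :=
      GG_mem_SS.2 ⟨⟨hsE, fun x hx => by
        rw [ZFSet.mem_singleton.1 hx]
        exact hI⟩, hSm⟩
    refine ZFSet.mem_sep.2 ⟨mem_pw.2 ⟨GG_Bl_mem h hD.mem hIE (h.mem_lE (hT.lt I hI)),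
      fun y hy => (ZFSet.mem_sep.1 hy).1⟩, _, h1, lam, NF.lam_mem h hF, fun y hy => ?_⟩
    exact (ZFSet.mem_sep.1 hy).2 I (ZFSet.mem_singleton.2 rfl)

theorem GG_fil (h : GS E kap lam del) (hF : NF E lam F) (hD : DF E lam F D)
    (hcl : DescCl E kap lam F D) {T gam : ZFSet.{0}} (hT : TG E kap lam F D T gam) :
    KFil E kap lam (GG E kap lam F D T gam) where
  mem := GG_mem h hF hD hT
  sub := fun A hA => (mem_pw.1 (ZFSet.mem_sep.1 hA).1).2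
  up := by
    intro A hA B hB hBl hAB
    obtain ⟨_, S, hS, X, hX, h1⟩ := ZFSet.mem_sep.1 hA
    exact ZFSet.mem_sep.2 ⟨mem_pw.2 ⟨hB, hBl⟩, S, hS, X, hX, fun y hy => hAB (h1 hy)⟩
  empty := GG_empty h hF hD hcl hT
  comp := fun a ha C hC hCa hv => GG_comp h hF hD hT ha hC hCa hv

end Pool.GE
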