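import Pool.Agent.Lib.MP_cc7fb1_ge.GB4
import Pool.Agent.Lib.MP_cc7fb1_ge.GB7
import Pool.Agent.Lib.MP_cc7fb1_ge.GB8

/-!
# GE, row B9: existence of a weakly normal ultrafilter
-/

set_option autoImplicit false
set_option linter.unusedVariables false

open Set

namespace Pool.GE

open Pool.MP_3ade05_lc Pool.PC Pool.UL Pool.UT

variable {E : Set ZFSet.{0}} {kap lam del F D : ZFSet.{0}}

/-- `T` = the set of all dense index sets, `gam` from `exists_GB` by `choose_fun`. -/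
lemma exists_TG (h : GS E kap lam del) (hF : NF E lam F) (hD : DF E lam F D) :
    ∃ T gam, TG E kap lam F D T gam ∧ ∀ I ∈ pw E lam, DI E lam F D I → I ∈ T := by
  have := h.tc
  have : InE E kap := ⟨h.kE⟩
  have : InE E lam := ⟨h.lE⟩
  have : InE E F := ⟨hF.mem⟩
  have : InE E D := ⟨hD.mem⟩
  have hTE : ZFSet.sep (fun I => DI E lam F D I) (pw E lam) ∈ E :=
    mem_of (E := E) (ZFSet.sep (fun I => DI E lam F D I) (pw E lam))
  have hR : Df E (fun v : Fin 2 → ZFSet.{0} => GB E kap lam F D (v 0) (v 1)) := inferInstance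
  obtain ⟨gam, hg, hgf, hgv⟩ := choose_fun (E := E) (fun I g => GB E kap lam F D I g) hTE h.lE
    (fun I hI => exists_GB h hF hD (ZFSet.mem_sep.1 hI).1 (ZFSet.mem_sep.1 hI).2)
  exact ⟨_, gam, ⟨hTE, fun I hI => (ZFSet.mem_sep.1 hI).1, hg, hgf, fun I hI => (hgv I hI).1,
    fun I hI => (hgv I hI).2⟩, fun I hI hd => ZFSet.mem_sep.2 ⟨hI, hd⟩⟩

/-- Row B9.  Given `f`, regressive on a set in `U`, the index set
`I = ZFSet.sep (fun a => ∃ b ∈ lam, SubM lam F (ap D a)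
(ZFSet.sep (fun y => ap f y ∈ y → ap f y = b) lam)) lam` is dense (`fodor`, `DF.dense`), so
`Bl lam D I (ap gam I) ∈ U`.  The values `b` for `a ∈ I ∩ ap gam I` (`lst`) are bounded in `lam`
(`bdd`); `NF.compD`. -/
theorem WN_of_gen (h : GS E kap lam del) (hF : NF E lam F) (hD : DF E lam F D) {T gam : ZFSet.{0}}
    (hT : TG E kap lam F D T gam) (hTa : ∀ I ∈ pw E lam, DI E lam F D I → I ∈ T) {U : ZFSet.{0}}
    (hU : UFk E kap lam U) (hFU : F ⊆ U) (hB : ∀ I ∈ T, Bl lam D I (ap gam I) ∈ U) :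
    WN E lam U := by
  have := h.tc
  have : InE E kap := ⟨h.kE⟩
  have : InE E lam := ⟨h.lE⟩
  have : InE E F := ⟨hF.mem⟩
  have : InE E D := ⟨hD.mem⟩
  intro f hf hfl hfv hA
  have : InE E f := ⟨hf⟩
  have hDaE : ∀ a ∈ lam, ap D a ∈ E := fun a ha => by
    have : InE E a := ⟨h.mem_lE ha⟩
    exact mem_of (E := E) (ap D a)
  have hWE : ∀ b ∈ E, ZFSet.sep (fun y => ap f y ∈ y → ap f y = b) lam ∈ E := fun b hb => by
    have : InE E b := ⟨hb⟩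
    exact mem_of (E := E) (ZFSet.sep (fun y => ap f y ∈ y → ap f y = b) lam)
  obtain ⟨I, hI⟩ : ∃ I, I = ZFSet.sep (fun a => ∃ b ∈ lam, SubM lam F (ap D a)
    (ZFSet.sep (fun y => ap f y ∈ y → ap f y = b) lam)) lam := ⟨_, rfl⟩
  have hIE : I ∈ E := by
    rw [hI]
    exact mem_of (E := E) (ZFSet.sep (fun a => ∃ b ∈ lam, SubM lam F (ap D a)
      (ZFSet.sep (fun y => ap f y ∈ y → ap f y = b) lam)) lam)
  have hIm : ∀ a, a ∈ I ↔ a ∈ lam ∧ ∃ b ∈ lam, SubM lam F (ap D a)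
      (ZFSet.sep (fun y => ap f y ∈ y → ap f y = b) lam) := fun a => by
    rw [hI, ZFSet.mem_sep]
  have hIp : I ∈ pw E lam := mem_pw.2 ⟨hIE, fun x hx => ((hIm x).1 hx).1⟩
  have hDI : DI E lam F D I := by
    intro P hP hPl hpos
    have : InE E P := ⟨hP⟩
    have hP1 : ZFSet.sep (fun y => ap f y ∈ y) P ∈ E :=
      mem_of (E := E) (ZFSet.sep (fun y => ap f y ∈ y) P)
    have hP2 : ZFSet.sep (fun y => ap f y ∉ y) P ∈ E :=
      mem_of (E := E) (ZFSet.sep (fun y => ap f y ∉ y) P)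
    by_cases h1 : Pos lam F (ZFSet.sep (fun y => ap f y ∈ y) P)
    · obtain ⟨b, hb, hQ⟩ := NF.fodor h hF hP1 (fun y hy => hPl (ZFSet.mem_sep.1 hy).1) h1 hf hfl
        (fun y hy => (ZFSet.mem_sep.1 hy).2)
      have : InE E b := ⟨h.mem_lE hb⟩
      obtain ⟨a, ha, haQ⟩ := hD.dense _ (mem_of (E := E) (ZFSet.sep (fun y => ap f y = b)
        (ZFSet.sep (fun y => ap f y ∈ y) P)))
        (fun y hy => hPl (ZFSet.mem_sep.1 (ZFSet.mem_sep.1 hy).1).1) hQ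
      refine ⟨a, (hIm a).2 ⟨ha, b, hb, ?_⟩, ?_⟩
      · exact SubM.trans h hF (hDaE a ha) (hWE b (h.mem_lE hb)) haQ
          (SubM.of_sub h hF fun x hx hxQ => ZFSet.mem_sep.2 ⟨hx, fun _ =>
            (ZFSet.mem_sep.1 hxQ).2⟩)
      · exact SubM.trans h hF (hDaE a ha) hP haQ (SubM.of_sub h hF fun x hx hxQ =>
          (ZFSet.mem_sep.1 (ZFSet.mem_sep.1 hxQ).1).1)
    · have h2 : Pos lam F (ZFSet.sep (fun y => ap f y ∉ y) P) := by
        intro h2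
        refine hpos (NF.up2 hF (not_not.1 h1) h2 (mem_of (E := E) (lam \ P))
          (fun y hy => (ZFSet.mem_sdiff.1 hy).1) ?_)
        intro y hy1 hy2
        rw [ZFSet.mem_sdiff] at hy1 hy2 ⊢
        refine ⟨hy1.1, fun hyP => ?_⟩
        by_cases h3 : ap f y ∈ y
        · exact hy1.2 (ZFSet.mem_sep.2 ⟨hyP, h3⟩)
        · exact hy2.2 (ZFSet.mem_sep.2 ⟨hyP, h3⟩)
      obtain ⟨a, ha, haQ⟩ := hD.dense _ hP2 (fun y hy => hPl (ZFSet.mem_sep.1 hy).1) h2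
      refine ⟨a, (hIm a).2 ⟨ha, ∅, h.empty_l, ?_⟩, ?_⟩
      · exact SubM.trans h hF (hDaE a ha) (hWE ∅ h.emptyE) haQ
          (SubM.of_sub h hF fun x hx hxQ => ZFSet.mem_sep.2 ⟨hx, fun h3 =>
            absurd h3 (ZFSet.mem_sep.1 hxQ).2⟩)
      · exact SubM.trans h hF (hDaE a ha) hP haQ (SubM.of_sub h hF fun x hx hxQ =>
          (ZFSet.mem_sep.1 hxQ).1)
  have hIT : I ∈ T := hTa I hIp hDI
  have hBI := hB I hIT
  have hg := hT.lt I hIT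
  obtain ⟨g, hgdef⟩ : ∃ g, g = ap gam I := ⟨_, rfl⟩
  rw [← hgdef] at hBI hg
  have : InE E g := ⟨h.mem_lE hg⟩
  have : InE E I := ⟨hIE⟩
  obtain ⟨r, hr⟩ : ∃ r, r = ZFSet.sep (fun a => a ∈ I) g := ⟨_, rfl⟩
  have hrE : r ∈ E := by
    rw [hr]
    exact mem_of (E := E) (ZFSet.sep (fun a => a ∈ I) g)
  have hrm : ∀ a, a ∈ r ↔ a ∈ g ∧ a ∈ I := fun a => by rw [hr, ZFSet.mem_sep]
  have : InE E r := ⟨hrE⟩
  have hrc : Cov E kap r := (h.lam_cov g hg).mono fun a ha => ((hrm a).1 ha).1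
  obtain ⟨bF, hbF⟩ : ∃ bF, bF = mkF (fun a => lst (ZFSet.sep (fun b => SubM lam F (ap D a)
    (ZFSet.sep (fun y => ap f y ∈ y → ap f y = b) lam)) lam)) r := ⟨_, rfl⟩
  have hbFE : bF ∈ E := by
    rw [hbF]
    exact mem_of (E := E) (mkF (fun a => lst (ZFSet.sep (fun b => SubM lam F (ap D a)
      (ZFSet.sep (fun y => ap f y ∈ y → ap f y = b) lam)) lam)) r)
  have : InE E bF := ⟨hbFE⟩
  have hbFf : FunOn bF r := by rw [hbF]; exact FunOn_mkF _ _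
  have hbv : ∀ a ∈ r, ap bF a ∈ lam ∧ SubM lam F (ap D a)
      (ZFSet.sep (fun y => ap f y ∈ y → ap f y = ap bF a) lam) := by
    intro a ha
    obtain ⟨b, hb, hbs⟩ := ((hIm a).1 ((hrm a).1 ha).2).2
    have h1 := (lst_spec (S := ZFSet.sep (fun b => SubM lam F (ap D a)
      (ZFSet.sep (fun y => ap f y ∈ y → ap f y = b) lam)) lam)
      (fun x hx => h.ord_l (ZFSet.mem_sep.1 hx).1) ⟨b, ZFSet.mem_sep.2 ⟨hb, hbs⟩⟩).1
    have h2 : ap bF a = lst (ZFSet.sep (fun b => SubM lam F (ap D a)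
      (ZFSet.sep (fun y => ap f y ∈ y → ap f y = b) lam)) lam) := by
      rw [hbF, ap_mkF ha]
    rw [← h2, ZFSet.mem_sep] at h1
    exact h1
  obtain ⟨bs, hbs, hbs'⟩ := h.bdd_fun hrc hbFE hbFf fun a ha => (hbv a ha).1
  refine ⟨bs, hbs, ?_⟩
  have : InE E bs := ⟨h.mem_lE hbs⟩
  have hX3 := NF.compD h hF hrE hrc (fun a => ZFSet.sep (fun x => x ∈ ap D a →
    x ∈ ZFSet.sep (fun y => ap f y ∈ y → ap f y = ap bF a) lam) lam) fun a ha => (hbv a ha).2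
  refine KFil.up2 h hU.toKFil (KFil.inter h hU.toKFil hA hBI) (hFU hX3)
    (mem_of (E := E) (ZFSet.sep (fun y => ap f y ∈ bs) lam))
    (fun y hy => (ZFSet.mem_sep.1 hy).1) ?_
  intro y hy1 hy2
  rw [ZFSet.mem_inter] at hy1
  obtain ⟨hyl, hyy⟩ := ZFSet.mem_sep.1 hy1.1
  obtain ⟨_, a, hag, haI, hyD⟩ := ZFSet.mem_sep.1 hy1.2
  have har : a ∈ r := (hrm a).2 ⟨hag, haI⟩
  have h3 := (ZFSet.mem_sep.1 ((ZFSet.mem_sep.1 hy2).2 a har)).2 hyD
  have h4 := (ZFSet.mem_sep.1 h3).2 hyy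
  refine ZFSet.mem_sep.2 ⟨hyl, ?_⟩
  rw [h4]
  exact hbs' a har

theorem exists_WN (h : GS E kap lam del) (hF : NF E lam F) (hD : DF E lam F D)
    (hcl : DescCl E kap lam F D) (hext : Ext E kap lam) :
    ∃ U, UFk E kap lam U ∧ F ⊆ U ∧ WN E lam U := by
  obtain ⟨T, gam, hT, hTa⟩ := exists_TG h hF hD
  obtain ⟨U, hU, hGU⟩ := hext _ (GG_fil h hF hD hcl hT)
  obtain ⟨h1, h2⟩ := GG_gen h hF hD hT
  have hFU : F ⊆ U := fun x hx => hGU (h1 hx)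
  exact ⟨U, hU, hFU, WN_of_gen h hF hD hT hTa hU hFU fun I hI => hGU (h2 I hI)⟩

end Pool.GE
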