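import Pool.Agent.Lib.MP_cc7fb1_ge.GA9
import Pool.Agent.Lib.MP_cc7fb1_ge.GB9

/-!
# GE, row main: the theorem
-/

set_option autoImplicit false
set_option linter.unusedVariables false

open Set

namespace Pool.GE

open Pool.MP_3ade05_lc Pool.PC Pool.UL Pool.UT

variable {E : Set ZFSet.{0}} {kap lam del F D : ZFSet.{0}}

/-- Row C1: uniformity.  A set covered by `d ∈ lam` is covered by `kap`, so bounded. -/
theorem UFk.unifUF (h : GS E kap lam del) (hF : NF E lam F) {U : ZFSet.{0}}
    (hU : UFk E kap lam U) (hFU : F ⊆ U) : UnifUF E lam U := by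
  haveI := h.tc
  have hUk : KFil E kap lam U := hU.toKFil
  refine ⟨hU.mem, hU.sub, hU.up, fun A hA B hB => KFil.inter h hUk hA hB, ?_, ?_⟩
  · intro A hA hAl
    constructor
    · intro h1 h2
      refine hU.empty ?_
      have h3 := KFil.inter h hUk h1 h2
      have h4 : A ∩ (lam \ A) = ∅ := by
        rw [ZFSet.eq_empty]
        intro x hx
        rw [ZFSet.mem_inter, ZFSet.mem_sdiff] at hx
        exact hx.2.2 hx.1
      rwa [h4] at h3
    · intro h1
      rcases hU.ultra A hA hAl with h2 | h2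
      · exact h2
      · exact absurd h2 h1
  · intro A hA d hd f hf hfd
    by_contra hcon
    push Not at hcon
    have hAE : A ∈ E := h.trans U hU.mem A hA
    have h1 : Cov E d A := ⟨f, hf, hfd, hcon⟩
    have h2 : Cov E kap A := cov_trans h.kE h1 (h.lam_cov d hd)
    obtain ⟨b, hb, hbA⟩ := h.bdd hAE (hU.sub A hA) h2
    have h3 : ZFSet.sep (fun y => b ∈ y) lam ∈ U := hFU (hF.final b hb)
    refine hU.empty ?_
    have h4 := KFil.inter h hUk hA h3
    have h5 : A ∩ ZFSet.sep (fun y => b ∈ y) lam = ∅ := by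
      rw [ZFSet.eq_empty]
      intro x hx
      rw [ZFSet.mem_inter, ZFSet.mem_sep] at hx
      exact ZFSet.mem_asymm (hbA x hx.1) hx.2.2
    rwa [h5] at h4

/-- **Galvin's property in `E`.** -/
theorem galvin_in_E (h : GS E kap lam del) (hF : NF E lam F) (hD : DF E lam F D)
    (hcl : DescCl E kap lam F D) (hext : Ext E kap lam) :
    ∃ U, UFk E kap lam U ∧ UnifUF E lam U ∧ F ⊆ U ∧ GalE E lam del U := by
  obtain ⟨U, hU, hFU, hw⟩ := exists_WN h hF hD hcl hext
  exact ⟨U, hU, hU.unifUF h hF hFU, hFU, gal_of_WN h hF hD hU hFU hw⟩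

end Pool.GE
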