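import Pool.Agent.Lib.MP_cc7fb1_ge.GBas
import Pool.Agent.Lib.MP_9fc97b_ut.TB2

/-!
# GE, row A1: sets covered by `kap` are bounded in `lam`
-/

set_option autoImplicit false
set_option linter.unusedVariables false

open Set

namespace Pool.GE

open Pool.MP_3ade05_lc Pool.PC Pool.UL Pool.UT

variable {E : Set ZFSet.{0}} {kap lam del F D : ZFSet.{0}}

/-- `lam` is not covered by `kap` (`InfCard` and `ap`). -/
lemma GS.not_cov_lam (h : GS E kap lam del) : ¬ Cov E kap lam := by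
  rintro ⟨f, hf, h1, h2⟩
  obtain ⟨y, hy, hn⟩ := h.lam_card.card kap h.kap_lam f hf h1
  obtain ⟨x, hx, hxy⟩ := h2 y hy
  exact hn x hx hxy

/-- `del` is not covered by `lam`. -/
lemma GS.not_cov_del (h : GS E kap lam del) : ¬ Cov E lam del := by
  rintro ⟨f, hf, h1, h2⟩
  obtain ⟨y, hy, hn⟩ := h.del_card.card lam h.lam_del f hf h1
  obtain ⟨x, hx, hxy⟩ := h2 y hy
  exact hn x hx hxy

/-- `cov_mono`. -/
lemma GS.cov_kl (h : GS E kap lam del) {C : ZFSet.{0}} (hc : Cov E kap C) : Cov E lam C := by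
  have := h.tc
  exact cov_mono h.lE h.kap_sub hc

/-- `kap` has two elements. -/
lemma GS.two_k (h : GS E kap lam del) : ∃ x ∈ kap, ∃ y ∈ kap, x ≠ y := by
  refine ⟨∅, h.empty_k, insert ∅ ∅, h.kap_card.inf (ZFSet.omega_succ ZFSet.omega_zero), ?_⟩
  intro he
  have h1 : (∅ : ZFSet.{0}) ∈ (insert ∅ ∅ : ZFSet.{0}) := ZFSet.mem_insert_iff.2 (Or.inl rfl)
  rw [← he] at h1
  exact ZFSet.notMem_empty _ h1

/-- A constant function. -/
lemma GS.cov_sing (h : GS E kap lam del) {x : ZFSet.{0}} (hx : x ∈ E) : Cov E kap {x} := by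
  have := h.tc
  have : InE E x := ⟨hx⟩
  have : InE E kap := ⟨h.kE⟩
  refine ⟨mkF (fun _ => x) kap, mem_of (E := E) (mkF (fun _ => x) kap), FunOn_mkF _ _,
    fun y hy => ?_⟩
  rw [ZFSet.mem_singleton] at hy
  exact ⟨∅, h.empty_k, pair_mem_mkF.2 ⟨h.empty_k, hy⟩⟩

/-- Row A1.  Otherwise `lam` is the union of the sets `insert x x`, `x ∈ A` (`ord_lt_or_le`), which
are covered by `kap` (`lam_cov`, `Cov.union`, `Cov.of_sub`), so `lam` is covered by `kap`
(`Cov.unionF` with `r = kap`, `s = A`, `D = lam`). -/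
theorem GS.bdd (h : GS E kap lam del) {A : ZFSet.{0}} (hA : A ∈ E) (hs : A ⊆ lam)
    (hc : Cov E kap A) : ∃ b ∈ lam, ∀ x ∈ A, x ∈ b := by
  have := h.tc
  by_contra hcon
  push Not at hcon
  apply h.not_cov_lam
  refine Cov.unionF (E := E) h.kE hA h.lE h.sqk hc (fun x => insert x x)
    (hC := inferInstance) ?_ ?_
  · intro x hx
    have h1 : Cov E kap (x ∪ {x}) :=
      Cov.union (E := E) h.kE h.sqk h.two_k (h.lam_cov x (hs hx)) (h.cov_sing (h.mem_lE (hs hx)))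
    refine cov_sub h1 ?_
    intro y hy
    rcases ZFSet.mem_insert_iff.1 hy with hy | hy
    · exact ZFSet.mem_union.2 (Or.inr (ZFSet.mem_singleton.2 hy))
    · exact ZFSet.mem_union.2 (Or.inl hy)
  · intro y hy
    obtain ⟨x, hx, hxy⟩ := hcon y hy
    refine ⟨x, hx, ZFSet.mem_insert_iff.2 ?_⟩
    rcases ord_lt_or_le (h.ord_l (hs hx)) (h.ord_l hy) with h1 | h1
    · exact absurd h1 hxy
    · rcases (ord_sub_iff (h.ord_l hy) (h.ord_l (hs hx))).1 h1 with h2 | h2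
      · exact Or.inr h2
      · exact Or.inl h2

/-- The same for functions: the set is `rng f`. -/
theorem GS.bdd_fun (h : GS E kap lam del) {d f : ZFSet.{0}} (hd : Cov E kap d) (hf : f ∈ E)
    (hfd : FunOn f d) (hv : ∀ x ∈ d, ap f x ∈ lam) : ∃ b ∈ lam, ∀ x ∈ d, ap f x ∈ b := by
  have := h.tc
  obtain ⟨b, hb, h1⟩ := h.bdd (A := rng f) (rng_memE hf) (fun y hy => by
    obtain ⟨x, hx, hxy⟩ := (mem_rng hfd).1 hy
    rw [← hxy]
    exact hv x hx) (cov_trans h.kE (cov_rng hf hfd) hd)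
  exact ⟨b, hb, fun x hx => h1 _ ((mem_rng hfd).2 ⟨x, hx, rfl⟩)⟩

/-- `lam` is a limit ordinal (`bdd` for `{x}`). -/
lemma GS.suc_l (h : GS E kap lam del) {x : ZFSet.{0}} (hx : x ∈ lam) : insert x x ∈ lam := by
  have := h.tc
  have : InE E x := ⟨h.mem_lE hx⟩
  obtain ⟨b, hb, h1⟩ := h.bdd (A := {x}) (mem_of (E := E) ({x} : ZFSet.{0})) (fun y hy => by
    rw [ZFSet.mem_singleton] at hy
    rw [hy]
    exact hx) (h.cov_sing (h.mem_lE hx))
  have h2 : x ∈ b := h1 x (ZFSet.mem_singleton.2 rfl)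
  refine ord_of_sub_mem (ZFSet.isOrdinal_succ (h.ord_l hx)) h.lam_card.ord ?_ hb
  intro y hy
  rcases ZFSet.mem_insert_iff.1 hy with hy | hy
  · rw [hy]
    exact h2
  · exact (h.ord_l hb).subset_of_mem h2 hy

/-- The union of two elements of `lam` is one of them. -/
lemma GS.union_l (h : GS E kap lam del) {x y : ZFSet.{0}} (hx : x ∈ lam) (hy : y ∈ lam) :
    x ∪ y ∈ lam := by
  rcases ord_lt_or_le (h.ord_l hx) (h.ord_l hy) with h1 | h1
  · have h2 : x ∪ y = y := by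
      ext z
      rw [ZFSet.mem_union]
      exact ⟨fun hz => hz.elim (fun hz => (h.ord_l hy).subset_of_mem h1 hz) id, Or.inr⟩
    rw [h2]
    exact hy
  · have h2 : x ∪ y = x := by
      ext z
      rw [ZFSet.mem_union]
      exact ⟨fun hz => hz.elim id (fun hz => h1 hz), Or.inl⟩
    rw [h2]
    exact hx

end Pool.GE
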