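import Pool.Agent.Lib.MP_cc7fb1_ge.GA1

/-!
# GE, row A3: the bounded subsets of `lam`
-/

set_option autoImplicit false
set_option linter.unusedVariables false

open Set

namespace Pool.GE

open Pool.MP_3ade05_lc Pool.PC Pool.UL Pool.UT

variable {E : Set ZFSet.{0}} {kap lam del F D : ZFSet.{0}}

/-- Row A3.  `cov_union` with `r = lam` and the sets `pw E b`, `b ∈ lam`; `pw E b` is covered by
`lam` by `lam_cov`, `PK` and `powLe_cov` (and `ap`). -/
theorem GS.bs_cov (h : GS E kap lam del) : Cov E lam (BS E lam) := by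
  have htc := h.tc
  refine cov_union h.lE h.sql (fun i => pw E i) (fun i hi => ?_) (fun y hy => ?_)
  · obtain ⟨f, hf, h1, h2⟩ := powLe_cov h.lE h.kE (h.mem_lE hi) (h.lam_cov i hi) h.PK
    refine ⟨f, hf, h1, fun y hy => ?_⟩
    rw [mem_pw] at hy
    exact h2 y hy.1 hy.2
  · unfold BS at hy
    rw [ZFSet.mem_sep, mem_pw] at hy
    obtain ⟨⟨h1, _⟩, b, hb, h2⟩ := hy
    exact ⟨b, hb, mem_pw.2 ⟨h1, h2⟩⟩

/-- Membership. -/
lemma mem_BS {s : ZFSet.{0}} : s ∈ BS E lam ↔ s ∈ E ∧ s ⊆ lam ∧ ∃ b ∈ lam, s ⊆ b := by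
  unfold BS
  rw [ZFSet.mem_sep, mem_pw, and_assoc]

end Pool.GE
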