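import Pool.Agent.Lib.MP_cc7fb1_ge.GA1
import Pool.Agent.Lib.MP_9fc97b_ut.TB2

/-!
# GE, row A4: pigeonhole principle
-/

set_option autoImplicit false
set_option linter.unusedVariables false

open Set

namespace Pool.GE

open Pool.MP_3ade05_lc Pool.PC Pool.UL Pool.UT

variable {E : Set ZFSet.{0}} {kap lam del F D : ZFSet.{0}}

/-- Row A4.  Otherwise `Cov.unionF` with `r = lam`, `s = T`, `D = J` and
`C t = ZFSet.sep (fun i => ap f i = t) J`. -/
theorem GS.pigeon (h : GS E kap lam del) {J T f : ZFSet.{0}} (hJ : J ∈ E) (hnJ : ¬ Cov E lam J)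
    (hT : T ∈ E) (hcT : Cov E lam T) (hf : f ∈ E) (hfJ : FunOn f J) (hv : ∀ i ∈ J, ap f i ∈ T) :
    ∃ t ∈ T, ¬ Cov E lam (ZFSet.sep (fun i => ap f i = t) J) := by
  haveI := h.tc
  haveI : InE E J := ⟨hJ⟩
  haveI : InE E f := ⟨hf⟩
  by_contra hc
  push Not at hc
  exact hnJ (Cov.unionF (E := E) h.lE hT hJ h.sql hcT
    (fun t => ZFSet.sep (fun i => ap f i = t) J) (fun t ht => hc t ht)
    (fun y hy => ⟨ap f y, hv y hy, ZFSet.mem_sep.2 ⟨hy, rfl⟩⟩))

end Pool.GE
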