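import Pool.Agent.Lib.MP_cc7fb1_ge.GA1

/-!
# GE, row A5: a choice of distinct representatives
-/

set_option autoImplicit false
set_option linter.unusedVariables false

open Set

namespace Pool.GE

open Pool.MP_3ade05_lc Pool.PC Pool.UL Pool.UT

variable {E : Set ZFSet.{0}} {kap lam del F D : ZFSet.{0}}

/-- Row A5.  Recursion: `j x = lst (ap H x \ rng (j ↾ x))`, i.e. `recB` (or `recur_mem`) for
`G f = lst (ap H (dmn f) \ rng f)` with `nu = lam`, `b = del`.  For `x ∈ lam` the set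
`ap H x \ rng (rs j x)` is not empty, as `rng (rs j x)` is covered by `x`, hence by `kap`;
`lst_spec`. -/
theorem GS.inj_choice (h : GS E kap lam del) {H : ZFSet.{0}} (hH : H ∈ E) (hHl : FunOn H lam)
    (hs : ∀ x ∈ lam, ap H x ⊆ del) (hn : ∀ x ∈ lam, ¬ Cov E kap (ap H x)) :
    ∃ j ∈ E, FunOn j lam ∧ (∀ x ∈ lam, ap j x ∈ ap H x) ∧
      ∀ x ∈ lam, ∀ y ∈ lam, ap j x = ap j y → x = y := by
  haveI := h.tc
  haveI : InE E H := ⟨hH⟩
  haveI : InE E del := ⟨h.dE⟩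
  have hGd : DfT E (fun v : Fin 1 → ZFSet.{0} =>
      lst (ZFSet.sep (fun z => z ∈ ap H (dmn (v 0)) ∧ z ∉ rng (v 0)) del)) := by
    have a1 : DfT E (fun v : Fin 2 → ZFSet.{0} => ap H (dmn (v 1))) := inferInstance
    have a2 : DfT E (fun v : Fin 2 → ZFSet.{0} => rng (v 1)) := inferInstance
    have a3 : Df E (fun v : Fin 2 → ZFSet.{0} => v 0 ∈ ap H (dmn (v 1)) ∧ v 0 ∉ rng (v 1)) :=
      inferInstance
    have a4 : DfT E (fun v : Fin 1 → ZFSet.{0} =>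
        ZFSet.sep (fun z => z ∈ ap H (dmn (v 0)) ∧ z ∉ rng (v 0)) del) :=
      DfT.instSep (P := fun z (v : Fin 1 → ZFSet.{0}) => z ∈ ap H (dmn (v 0)) ∧ z ∉ rng (v 0))
        (t := fun _ => del) (hP := a3)
    exact DfT.instLst (hs := a4)
  obtain ⟨j, hj, hjl, h1⟩ := recB (E := E)
    (fun f => lst (ZFSet.sep (fun z => z ∈ ap H (dmn f) ∧ z ∉ rng f) del)) (hG := hGd)
    h.lE h.lam_card.ord h.dE
    (fun f hf => lst_mem h.del_card.ord (h.lam_sub h.empty_l) (fun z hz => (ZFSet.mem_sep.1 hz).1))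
  have h2 : ∀ x ∈ lam, ap j x ∈ ap H x ∧ ap j x ∉ rng (rs j x) := by
    intro x hx
    obtain ⟨h3, h4, h5, h6, h7⟩ := h1 x hx
    have h8 : ∃ z, z ∈ ZFSet.sep (fun z => z ∈ ap H (dmn (rs j x)) ∧ z ∉ rng (rs j x)) del := by
      by_contra hc
      push Not at hc
      refine hn x hx (cov_sub (cov_trans h.kE (cov_rng h4 h5) (h.lam_cov x hx)) ?_)
      intro z hz
      by_contra hz'
      exact hc z (ZFSet.mem_sep.2 ⟨hs x hx hz, by rw [dmn_eq h5]; exact hz, hz'⟩)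
    have h9 := (lst_spec (fun z hz => h.ord_d (ZFSet.mem_sep.1 hz).1) h8).1
    have h10 := (ZFSet.mem_sep.1 h9).2
    rw [← h7, dmn_eq h5] at h10
    exact h10
  have key : ∀ x ∈ lam, ∀ y ∈ lam, x ∈ y → ap j x ≠ ap j y := by
    intro x hx y hy hxy he
    obtain ⟨h3, h4, h5, h6, h7⟩ := h1 y hy
    refine (h2 y hy).2 ?_
    rw [mem_rng h5]
    exact ⟨x, hxy, by rw [h6 x hxy, he]⟩
  refine ⟨j, hj, hjl, fun x hx => (h2 x hx).1, fun x hx y hy he => ?_⟩
  rcases (h.ord_l hx).mem_trichotomous (h.ord_l hy) with h3 | h3 | h3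
  · exact absurd he (key x hx y hy h3)
  · exact h3
  · exact absurd he.symm (key y hy x hx h3)

end Pool.GE
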