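import Pool.Agent.Lib.MP_cc7fb1_ge.GA2
import Pool.Agent.Lib.MP_cc7fb1_ge.GA3
import Pool.Agent.Lib.MP_cc7fb1_ge.GA4
import Pool.Agent.Lib.MP_cc7fb1_ge.GA5

/-!
# GE, row A6: Galvin for a normal filter
-/

set_option autoImplicit false
set_option linter.unusedVariables false

open Set

namespace Pool.GE

open Pool.MP_3ade05_lc Pool.PC Pool.UL Pool.UT

variable {E : Set ZFSet.{0}} {kap lam del F D : ZFSet.{0}}

/-- The class of `i` at `x`. -/
noncomputable def cls (C J i x : ZFSet.{0}) : ZFSet.{0} :=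
  ZFSet.sep (fun k => ap C k ∩ insert x x = ap C i ∩ insert x x) J

instance DfT.instCls {n : ℕ} [hT : TZ E] {c j i x : (Fin n → ZFSet.{0}) → ZFSet.{0}}
    [hc : DfT E c] [hj : DfT E j] [hi : DfT E i] [hx : DfT E x] :
    DfT E (fun v => cls (c v) (j v) (i v) (x v)) := by
  have hc1 := hc.up
  have hi1 := hi.up
  have hx1 := hx.up
  have h : DfT E (fun v => ZFSet.sep (fun k => ap (c v) k ∩ insert (x v) (x v) =
    ap (c v) (i v) ∩ insert (x v) (x v)) (j v)) := inferInstance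
  exact h

/-- Row A6, first half.  Otherwise `choose_fun` gives `x : J → lam` in `E` with `cls C J i (x i)`
covered by `kap` for all `i ∈ J`.  Pigeonhole `GS.pigeon` for
`i ↦ pair (x i) (ap C i ∩ insert (x i) (x i))` into `prd lam (BS E lam)` (covered by `lam`:
`cov_prd`, `bs_cov`, `sql`) gives a fibre which is not covered by `lam`, hence not empty; for `i₁` in
the fibre, the fibre is contained in `cls C J i₁ (x i₁)`.  Contradiction by `cov_kl`. -/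
theorem NF.exists_cls (h : GS E kap lam del) (hF : NF E lam F) {J C : ZFSet.{0}} (hJ : J ∈ E)
    (hnJ : ¬ Cov E lam J) (hC : C ∈ E) (hCJ : FunOn C J) (hv : ∀ i ∈ J, ap C i ∈ F) :
    ∃ i ∈ J, ∀ x ∈ lam, ¬ Cov E kap (cls C J i x) := by
  haveI := h.tc
  by_contra hne
  push Not at hne
  haveI : InE E J := ⟨hJ⟩
  haveI : InE E C := ⟨hC⟩
  haveI : InE E kap := ⟨h.kE⟩
  haveI : InE E lam := ⟨h.lE⟩
  obtain ⟨f, hf, hf1, hf2⟩ := choose_fun (E := E) (fun i x => Cov E kap (cls C J i x)) hJ h.lE hne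
  haveI : InE E f := ⟨hf⟩
  have hBS : BS E lam ∈ E := mem_of (E := E) (BS E lam)
  have hT : prd lam (BS E lam) ∈ E := mem_of (E := E) (prd lam (BS E lam))
  have hcT : Cov E lam (prd lam (BS E lam)) := cov_prd h.lE h.sql (cov_id h.lE (fun x hx => hx)) h.bs_cov
  set g : ZFSet.{0} := mkF (fun i => ZFSet.pair (ap f i) (ap C i ∩ insert (ap f i) (ap f i))) J with hg
  have hgE : g ∈ E := mem_of (E := E)
    (mkF (fun i => ZFSet.pair (ap f i) (ap C i ∩ insert (ap f i) (ap f i))) J)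
  obtain ⟨t, ht, hnt⟩ := h.pigeon hJ hnJ hT hcT hgE (FunOn_mkF _ _) (by
    intro i hi
    rw [ap_mkF hi, pair_mem_prd]
    have hfi := (hf2 i hi).1
    have hiE : i ∈ E := h.trans _ hJ _ hi
    haveI : InE E i := ⟨hiE⟩
    refine ⟨hfi, mem_BS.2 ⟨mem_of (E := E) (ap C i ∩ insert (ap f i) (ap f i)), ?_,
      insert (ap f i) (ap f i), h.suc_l hfi, fun z hz => (ZFSet.mem_inter.1 hz).2⟩⟩
    intro z hz
    exact hF.sub _ (hv i hi) (ZFSet.mem_inter.1 hz).1)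
  have hne' : ∃ i, i ∈ ZFSet.sep (fun i => ap g i = t) J := by
    by_contra hno
    push Not at hno
    exact hnt (cov_id h.lE (fun x hx => absurd hx (hno x)))
  obtain ⟨i, hi⟩ := hne'
  obtain ⟨hiJ, hit⟩ := ZFSet.mem_sep.1 hi
  refine hnt (cov_sub (h.cov_kl (hf2 i hiJ).2) ?_)
  intro k hk
  obtain ⟨hkJ, hkt⟩ := ZFSet.mem_sep.1 hk
  rw [ap_mkF hiJ] at hit
  rw [ap_mkF hkJ, ← hit] at hkt
  obtain ⟨e1, e2⟩ := ZFSet.pair_injective hkt
  refine ZFSet.mem_sep.2 ⟨hkJ, ?_⟩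
  rw [e1] at e2
  exact e2

/-- Row A6, second half.  `inj_choice` for `H x = cls C J i x`, then `diag` for
`x ↦ ap C (ap j x)`, intersected with `ap C i`: if `x ∈ y` use `diag`, otherwise `y ∈ insert x x`
and `y ∈ ap C i ∩ insert x x = ap C (ap j x) ∩ insert x x`. -/
theorem NF.galvin (h : GS E kap lam del) (hF : NF E lam F) {J C : ZFSet.{0}} (hJ : J ∈ E)
    (hJd : J ⊆ del) (hnJ : ¬ Cov E lam J) (hC : C ∈ E) (hCJ : FunOn C J)
    (hv : ∀ i ∈ J, ap C i ∈ F) :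
    ∃ j ∈ E, FunOn j lam ∧ (∀ x ∈ lam, ap j x ∈ J) ∧
      (∀ x ∈ lam, ∀ y ∈ lam, ap j x = ap j y → x = y) ∧
      ZFSet.sep (fun y => ∀ x ∈ lam, y ∈ ap C (ap j x)) lam ∈ F := by
  haveI := h.tc
  obtain ⟨i, hi, hcl⟩ := hF.exists_cls h hJ hnJ hC hCJ hv
  haveI : InE E J := ⟨hJ⟩
  haveI : InE E C := ⟨hC⟩
  haveI : InE E lam := ⟨h.lE⟩
  haveI : InE E i := ⟨h.trans _ hJ _ hi⟩
  obtain ⟨j, hj, hj1, hj2, hj3⟩ := h.inj_choice (H := mkF (fun x => cls C J i x) lam)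
    (mem_of (E := E) (mkF (fun x => cls C J i x) lam)) (FunOn_mkF _ _)
    (by
      intro x hx
      rw [ap_mkF hx]
      exact fun k hk => hJd (ZFSet.mem_sep.1 hk).1)
    (by
      intro x hx
      rw [ap_mkF hx]
      exact hcl x hx)
  have hj4 : ∀ x ∈ lam, ap j x ∈ cls C J i x := by
    intro x hx
    have := hj2 x hx
    rwa [ap_mkF hx] at this
  have hj5 : ∀ x ∈ lam, ap j x ∈ J := fun x hx => (ZFSet.mem_sep.1 (hj4 x hx)).1
  haveI : InE E j := ⟨hj⟩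
  refine ⟨j, hj, hj1, hj5, hj3, ?_⟩
  have hd := hF.diag (mkF (fun x => ap C (ap j x)) lam)
    (mem_of (E := E) (mkF (fun x => ap C (ap j x)) lam)) (FunOn_mkF _ _)
    (by
      intro x hx
      rw [ap_mkF hx]
      exact hv _ (hj5 x hx))
  refine hF.up _ (hF.inter _ hd _ (hv i hi)) _
    (mem_of (E := E) (ZFSet.sep (fun y => ∀ x ∈ lam, y ∈ ap C (ap j x)) lam))
    (fun y hy => (ZFSet.mem_sep.1 hy).1) ?_
  intro y hy
  obtain ⟨hy1, hy2⟩ := ZFSet.mem_inter.1 hy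
  obtain ⟨hyl, hy3⟩ := ZFSet.mem_sep.1 hy1
  refine ZFSet.mem_sep.2 ⟨hyl, fun x hx => ?_⟩
  rcases ord_lt_or_le (h.ord_l hx) (h.ord_l hyl) with hxy | hyx
  · have := hy3 x hxy
    rwa [ap_mkF hx] at this
  · have hyi : y ∈ insert x x := by
      rw [ZFSet.mem_insert_iff]
      rcases (ord_sub_iff (h.ord_l hyl) (h.ord_l hx)).1 hyx with h1 | h1
      · exact Or.inr h1
      · exact Or.inl h1
    have h2 : y ∈ ap C i ∩ insert x x := ZFSet.mem_inter.2 ⟨hy2, hyi⟩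
    rw [← (ZFSet.mem_sep.1 (hj4 x hx)).2] at h2
    exact (ZFSet.mem_inter.1 h2).1

end Pool.GE
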