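import Pool.Agent.Lib.MP_cc7fb1_ge.GBas

/-!
# GE, row A7: elementary facts on filters
-/

set_option autoImplicit false
set_option linter.unusedVariables false

open Set

namespace Pool.GE

open Pool.MP_3ade05_lc Pool.PC Pool.UL Pool.UT

variable {E : Set ZFSet.{0}} {kap lam del F D : ZFSet.{0}}

section

variable {A B C P : ZFSet.{0}}

/-- `lam ∈ F`. -/
lemma NF.lam_mem (h : GS E kap lam del) (hF : NF E lam F) : lam ∈ F :=
  hF.up _ (hF.final ∅ h.empty_l) lam h.lE (fun x hx => hx) (fun x hx => (ZFSet.mem_sep.1 hx).1)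

/-- `A ∩ B ∈ F`, upwards. -/
lemma NF.up2 (hF : NF E lam F) {C : ZFSet.{0}} (hA : A ∈ F) (hB : B ∈ F) (hC : C ∈ E)
    (hCl : C ⊆ lam) (hs : ∀ y ∈ A, y ∈ B → y ∈ C) : C ∈ F :=
  hF.up _ (hF.inter A hA B hB) C hC hCl (fun y hy => hs y (ZFSet.mem_inter.1 hy).1
    (ZFSet.mem_inter.1 hy).2)

lemma KFil.lam_mem (h : GS E kap lam del) {G : ZFSet.{0}} (hG : KFil E kap lam G) : lam ∈ G := by
  haveI := h.tc
  have h0 : FunOn (mkF (fun x => x) (∅ : ZFSet.{0})) ∅ := FunOn_mkF _ _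
  haveI : InE E (∅ : ZFSet.{0}) := ⟨h.emptyE⟩
  have h1 : mkF (fun x => x) (∅ : ZFSet.{0}) ∈ E := mem_of (E := E) (mkF (fun x => x) ∅)
  refine hG.up _ (hG.comp ∅ h.empty_k _ h1 h0 (fun x hx => absurd hx (ZFSet.notMem_empty x))) lam
    h.lE (fun x hx => hx) (fun x hx => (ZFSet.mem_sep.1 hx).1)

/-- `comp` for the index set `num 2` (elements `∅` and `{∅}`). -/
lemma KFil.inter (h : GS E kap lam del) {G : ZFSet.{0}} (hG : KFil E kap lam G) (hA : A ∈ G)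
    (hB : B ∈ G) : A ∩ B ∈ G := by
  haveI := h.tc
  haveI : InE E lam := ⟨h.lE⟩
  haveI : InE E A := ⟨h.trans _ hG.mem _ hA⟩
  haveI : InE E B := ⟨h.trans _ hG.mem _ hB⟩
  haveI : InE E (∅ : ZFSet.{0}) := ⟨h.emptyE⟩
  -- the index set
  have hk1 : (insert (∅ : ZFSet.{0}) (∅ : ZFSet.{0}) : ZFSet.{0}) ∈ ZFSet.omega := ZFSet.omega_succ ZFSet.omega_zero
  have hk2 : insert (insert (∅ : ZFSet.{0}) ∅) (insert (∅ : ZFSet.{0}) ∅) ∈ ZFSet.omega :=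
    ZFSet.omega_succ hk1
  have hkk := h.kap_card.inf hk2
  haveI : InE E (insert (insert (∅ : ZFSet.{0}) ∅) (insert (∅ : ZFSet.{0}) ∅)) := ⟨h.mem_kE hkk⟩
  set t : ZFSet.{0} := insert (insert (∅ : ZFSet.{0}) ∅) (insert (∅ : ZFSet.{0}) ∅) with ht
  have m0 : (∅ : ZFSet.{0}) ∈ t := by
    rw [ht]
    exact ZFSet.mem_insert_of_mem _ (ZFSet.mem_insert _ _)
  have m1 : (insert (∅ : ZFSet.{0}) (∅ : ZFSet.{0}) : ZFSet.{0}) ∈ t := by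
    rw [ht]
    exact ZFSet.mem_insert _ _
  have hne : (insert (∅ : ZFSet.{0}) (∅ : ZFSet.{0}) : ZFSet.{0}) ≠ ∅ := by
    intro he
    have h1 : (∅ : ZFSet.{0}) ∈ (insert (∅ : ZFSet.{0}) (∅ : ZFSet.{0}) : ZFSet.{0}) := ZFSet.mem_insert _ _
    rw [he] at h1
    exact ZFSet.notMem_empty _ h1
  have hd : DfT E (fun v : Fin 1 → ZFSet.{0} =>
      ZFSet.sep (fun y => (v 0 = ∅ → y ∈ A) ∧ (¬ v 0 = ∅ → y ∈ B)) lam) := inferInstance
  have hC : mkF (fun x => ZFSet.sep (fun y => (x = ∅ → y ∈ A) ∧ (¬ x = ∅ → y ∈ B)) lam) t ∈ E :=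
    mem_of (E := E) (mkF (fun x => ZFSet.sep (fun y => (x = ∅ → y ∈ A) ∧ (¬ x = ∅ → y ∈ B)) lam) t)
  have hv : ∀ x ∈ t, ap (mkF (fun x => ZFSet.sep (fun y => (x = ∅ → y ∈ A) ∧
      (¬ x = ∅ → y ∈ B)) lam) t) x ∈ G := by
    intro x hx
    rw [ap_mkF hx]
    have hxE : x ∈ E := h.trans _ (h.mem_kE hkk) _ hx
    have hE : ZFSet.sep (fun y => (x = ∅ → y ∈ A) ∧ (¬ x = ∅ → y ∈ B)) lam ∈ E := by
      haveI : InE E x := ⟨hxE⟩
      exact mem_of (E := E) (ZFSet.sep (fun y => (x = ∅ → y ∈ A) ∧ (¬ x = ∅ → y ∈ B)) lam)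
    by_cases hx0 : x = ∅
    · refine hG.up A hA _ hE (fun y hy => (ZFSet.mem_sep.1 hy).1) (fun y hy => ?_)
      exact ZFSet.mem_sep.2 ⟨hG.sub A hA hy, fun _ => hy, fun h => absurd hx0 h⟩
    · refine hG.up B hB _ hE (fun y hy => (ZFSet.mem_sep.1 hy).1) (fun y hy => ?_)
      exact ZFSet.mem_sep.2 ⟨hG.sub B hB hy, fun h => absurd h hx0, fun _ => hy⟩
  refine hG.up _ (hG.comp t hkk _ hC (FunOn_mkF _ _) hv) (A ∩ B) (mem_of (E := E) (A ∩ B))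
    (fun y hy => hG.sub A hA (ZFSet.mem_inter.1 hy).1) (fun y hy => ?_)
  have h1 := (ZFSet.mem_sep.1 hy).2
  have h2 := h1 _ m0
  have h3 := h1 _ m1
  rw [ap_mkF m0] at h2
  rw [ap_mkF m1] at h3
  exact ZFSet.mem_inter.2 ⟨(ZFSet.mem_sep.1 h2).2.1 rfl, (ZFSet.mem_sep.1 h3).2.2 hne⟩

lemma KFil.up2 (h : GS E kap lam del) {G : ZFSet.{0}} (hG : KFil E kap lam G) {C : ZFSet.{0}}
    (hA : A ∈ G) (hB : B ∈ G) (hC : C ∈ E) (hCl : C ⊆ lam) (hs : ∀ y ∈ A, y ∈ B → y ∈ C) :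
    C ∈ G :=
  hG.up _ (hG.inter h hA hB) C hC hCl (fun y hy => hs y (ZFSet.mem_inter.1 hy).1
    (ZFSet.mem_inter.1 hy).2)

lemma UFk.ne_empty {U : ZFSet.{0}} (hU : UFk E kap lam U) (hA : A ∈ U) : ∃ x, x ∈ A := by
  by_contra hc
  have h1 : A = ∅ := by
    rw [ZFSet.eq_empty]
    exact fun x hx => hc ⟨x, hx⟩
  rw [h1] at hA
  exact hU.empty hA

lemma SubM.of_sub (h : GS E kap lam del) (hF : NF E lam F) (hs : ∀ x ∈ lam, x ∈ A → x ∈ B) :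
    SubM lam F A B := by
  unfold SubM
  have h1 : ZFSet.sep (fun x => x ∈ A → x ∈ B) lam = lam := by
    ext x
    rw [ZFSet.mem_sep]
    exact ⟨fun hx => hx.1, fun hx => ⟨hx, hs x hx⟩⟩
  rw [h1]
  exact hF.lam_mem h

lemma SubM.trans (h : GS E kap lam del) (hF : NF E lam F) (hA : A ∈ E) (hC : C ∈ E)
    (h1 : SubM lam F A B) (h2 : SubM lam F B C) : SubM lam F A C := by
  haveI := h.tc
  haveI : InE E lam := ⟨h.lE⟩
  haveI : InE E A := ⟨hA⟩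
  haveI : InE E C := ⟨hC⟩
  refine hF.up2 h1 h2 (mem_of (E := E) (ZFSet.sep (fun x => x ∈ A → x ∈ C) lam))
    (fun y hy => (ZFSet.mem_sep.1 hy).1) (fun y hy hy' => ?_)
  exact ZFSet.mem_sep.2 ⟨(ZFSet.mem_sep.1 hy).1, fun hyA => (ZFSet.mem_sep.1 hy').2
    ((ZFSet.mem_sep.1 hy).2 hyA)⟩

lemma Pos.mono (h : GS E kap lam del) (hF : NF E lam F) (hA : A ∈ E) (h1 : Pos lam F A)
    (h2 : SubM lam F A B) : Pos lam F B := by
  haveI := h.tc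
  haveI : InE E lam := ⟨h.lE⟩
  haveI : InE E A := ⟨hA⟩
  intro hB
  refine h1 (hF.up2 h2 hB (mem_of (E := E) (lam \ A)) (fun y hy => (ZFSet.mem_sdiff.1 hy).1)
    (fun y hy hy' => ?_))
  rw [ZFSet.mem_sdiff] at hy' ⊢
  exact ⟨hy'.1, fun hyA => hy'.2 ((ZFSet.mem_sep.1 hy).2 hyA)⟩

/-- Row A7: a positive set contains a member of the dense family which decides `A`. -/
theorem DF.split (h : GS E kap lam del) (hF : NF E lam F) (hD : DF E lam F D) (hP : P ∈ E)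
    (hPl : P ⊆ lam) (hpos : Pos lam F P) (hA : A ∈ E) (hAl : A ⊆ lam) :
    ∃ a ∈ lam, SubM lam F (ap D a) P ∧ DcB lam F (ap D a) A := by
  haveI := h.tc
  haveI : InE E lam := ⟨h.lE⟩
  haveI : InE E A := ⟨hA⟩
  haveI : InE E P := ⟨hP⟩
  haveI : InE E D := ⟨hD.mem⟩
  have i1 : P ∩ A ∈ E := mem_of (E := E) (P ∩ A)
  have i2 : P \ A ∈ E := mem_of (E := E) (P \ A)
  have i3 : lam \ A ∈ E := mem_of (E := E) (lam \ A)
  have hDa : ∀ a ∈ lam, ap D a ∈ E := fun a ha => by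
    haveI : InE E a := ⟨h.mem_lE ha⟩
    exact mem_of (E := E) (ap D a)
  have h0 : Pos lam F (P ∩ A) ∨ Pos lam F (P \ A) := by
    by_contra hc
    unfold Pos at hc
    push Not at hc
    refine hpos (hF.up2 hc.1 hc.2 (mem_of (E := E) (lam \ P))
      (fun y hy => (ZFSet.mem_sdiff.1 hy).1) (fun y hy hy' => ?_))
    rw [ZFSet.mem_sdiff] at hy hy' ⊢
    refine ⟨hy.1, fun hyP => ?_⟩
    by_cases hyA : y ∈ A
    · exact hy.2 (ZFSet.mem_inter.2 ⟨hyP, hyA⟩)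
    · exact hy'.2 (ZFSet.mem_sdiff.2 ⟨hyP, hyA⟩)
  rcases h0 with h0 | h0
  · obtain ⟨a, ha, h1⟩ := hD.dense _ i1 (fun y hy => hPl (ZFSet.mem_inter.1 hy).1) h0
    refine ⟨a, ha, h1.trans h hF (hDa a ha) hP (SubM.of_sub h hF fun x _ hx =>
      (ZFSet.mem_inter.1 hx).1), Or.inl (h1.trans h hF (hDa a ha) hA (SubM.of_sub h hF fun x _ hx =>
      (ZFSet.mem_inter.1 hx).2))⟩
  · obtain ⟨a, ha, h1⟩ := hD.dense _ i2 (fun y hy => hPl (ZFSet.mem_sdiff.1 hy).1) h0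
    refine ⟨a, ha, h1.trans h hF (hDa a ha) hP (SubM.of_sub h hF fun x _ hx =>
      (ZFSet.mem_sdiff.1 hx).1), Or.inr (h1.trans h hF (hDa a ha) i3 (SubM.of_sub h hF fun x hxl hx =>
      ZFSet.mem_sdiff.2 ⟨hxl, (ZFSet.mem_sdiff.1 hx).2⟩))⟩

end

end Pool.GE
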