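import Pool.Agent.Lib.MP_cc7fb1_ge.GA2
import Pool.Agent.Lib.MP_cc7fb1_ge.GA3
import Pool.Agent.Lib.MP_cc7fb1_ge.GA7

/-!
# GE, row A8: from decided bounded parts to bounded bases
-/

set_option autoImplicit false
set_option linter.unusedVariables false

open Set

namespace Pool.GE

open Pool.MP_3ade05_lc Pool.PC Pool.UL Pool.UT

variable {E : Set ZFSet.{0}} {kap lam del F D : ZFSet.{0}}

/-- Row A8.  `S = ZFSet.sep (fun a => SubM lam F (ap D a) A) b`; `NF.compD` with `r = S` and with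
`r = ZFSet.sep (fun a => SubM lam F (ap D a) (lam \ A)) b` (subsets of `b ∈ lam` are covered by
`kap`). -/
theorem base_of_dec (h : GS E kap lam del) (hF : NF E lam F) (hD : DF E lam F D) {U : ZFSet.{0}}
    (hU : UFk E kap lam U) (hFU : F ⊆ U) {A b : ZFSet.{0}} (hA : A ∈ U) (hb : b ∈ lam)
    (hd : Dc lam F D A b ∈ U) :
    ∃ S ∈ BS E lam, UO lam D S ∈ U ∧ SubM lam F (UO lam D S) A := by
  haveI := h.tc
  have hAl : A ⊆ lam := hU.sub A hA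
  have hAE : A ∈ E := h.trans _ hU.mem _ hA
  haveI : InE E lam := ⟨h.lE⟩
  haveI : InE E F := ⟨hF.mem⟩
  haveI : InE E D := ⟨hD.mem⟩
  haveI : InE E A := ⟨hAE⟩
  haveI : InE E b := ⟨h.mem_lE hb⟩
  obtain ⟨S, hS⟩ : ∃ S, S = ZFSet.sep (fun a => SubM lam F (ap D a) A) b := ⟨_, rfl⟩
  obtain ⟨S', hS'⟩ : ∃ S', S' = ZFSet.sep (fun a => SubM lam F (ap D a) (lam \ A)) b := ⟨_, rfl⟩
  have hSE : S ∈ E := by
    rw [hS]
    exact mem_of (E := E) (ZFSet.sep (fun a => SubM lam F (ap D a) A) b)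
  have hS'E : S' ∈ E := by
    rw [hS']
    exact mem_of (E := E) (ZFSet.sep (fun a => SubM lam F (ap D a) (lam \ A)) b)
  have mS : ∀ a, a ∈ S ↔ a ∈ b ∧ SubM lam F (ap D a) A := by
    intro a
    rw [hS, ZFSet.mem_sep]
  have mS' : ∀ a, a ∈ S' ↔ a ∈ b ∧ SubM lam F (ap D a) (lam \ A) := by
    intro a
    rw [hS', ZFSet.mem_sep]
  have hSb : S ⊆ b := fun a ha => ((mS a).1 ha).1
  have hS'b : S' ⊆ b := fun a ha => ((mS' a).1 ha).1
  have hbl : b ⊆ lam := h.sub_l hb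
  haveI : InE E S := ⟨hSE⟩
  haveI : InE E S' := ⟨hS'E⟩
  have k1 : ZFSet.sep (fun y => ∀ x ∈ S', y ∈ ZFSet.sep (fun y => y ∈ ap D x → y ∈ lam \ A) lam)
      lam ∈ F :=
    hF.compD h hS'E (cov_sub (h.lam_cov b hb) hS'b)
      (fun x => ZFSet.sep (fun y => y ∈ ap D x → y ∈ lam \ A) lam) (fun x hx => ((mS' x).1 hx).2)
  have k2 : ZFSet.sep (fun y => ∀ x ∈ S, y ∈ ZFSet.sep (fun y => y ∈ ap D x → y ∈ A) lam)
      lam ∈ F :=
    hF.compD h hSE (cov_sub (h.lam_cov b hb) hSb)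
      (fun x => ZFSet.sep (fun y => y ∈ ap D x → y ∈ A) lam) (fun x hx => ((mS x).1 hx).2)
  refine ⟨S, mem_BS.2 ⟨hSE, fun a ha => hbl (hSb ha), b, hb, hSb⟩, ?_, ?_⟩
  · refine KFil.up2 h hU.toKFil (KFil.inter h hU.toKFil hd hA) (hFU k1)
      (mem_of (E := E) (UO lam D S)) (fun y hy => (ZFSet.mem_sep.1 hy).1) ?_
    intro y hy hy2
    rw [ZFSet.mem_inter] at hy
    obtain ⟨hyD, hyA⟩ := hy
    obtain ⟨hyl, a, ha, hdec, hya⟩ := ZFSet.mem_sep.1 hyD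
    rcases hdec with h3 | h3
    · exact ZFSet.mem_sep.2 ⟨hyl, a, (mS a).2 ⟨ha, h3⟩, hya⟩
    · have h4 := (ZFSet.mem_sep.1 ((ZFSet.mem_sep.1 hy2).2 a ((mS' a).2 ⟨ha, h3⟩))).2 hya
      exact absurd hyA (ZFSet.mem_sdiff.1 h4).2
  · refine hF.up _ k2 _ (mem_of (E := E) (ZFSet.sep (fun x => x ∈ UO lam D S → x ∈ A) lam))
      (fun y hy => (ZFSet.mem_sep.1 hy).1) ?_
    intro y hy
    obtain ⟨hyl, hy2⟩ := ZFSet.mem_sep.1 hy
    refine ZFSet.mem_sep.2 ⟨hyl, fun hyU => ?_⟩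
    obtain ⟨-, a, ha, hya⟩ := ZFSet.mem_sep.1 hyU
    exact (ZFSet.mem_sep.1 (hy2 a ha)).2 hya

/-- Row A8.  Otherwise the complement of the set is positive; `DF.split`, `final`, `DF.pos`. -/
theorem cover_of_dense (h : GS E kap lam del) (hF : NF E lam F) (hD : DF E lam F D) {A : ZFSet.{0}}
    (hA : A ∈ E) (hAl : A ⊆ lam) :
    ZFSet.sep (fun y => ∃ a ∈ y, DcB lam F (ap D a) A ∧ y ∈ ap D a) lam ∈ F := by
  by_contra hcon
  haveI := h.tc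
  haveI : InE E lam := ⟨h.lE⟩
  haveI : InE E F := ⟨hF.mem⟩
  haveI : InE E D := ⟨hD.mem⟩
  haveI : InE E A := ⟨hA⟩
  obtain ⟨W, hW⟩ : ∃ W, W = ZFSet.sep (fun y => ∃ a ∈ y, DcB lam F (ap D a) A ∧ y ∈ ap D a) lam :=
    ⟨_, rfl⟩
  have hWE : W ∈ E := by
    rw [hW]
    exact mem_of (E := E)
      (ZFSet.sep (fun y => ∃ a ∈ y, DcB lam F (ap D a) A ∧ y ∈ ap D a) lam)
  rw [← hW] at hcon
  haveI : InE E W := ⟨hWE⟩
  have hWl : W ⊆ lam := fun y hy => by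
    rw [hW] at hy
    exact (ZFSet.mem_sep.1 hy).1
  have hpos : Pos lam F (lam \ W) := by
    intro hc
    apply hcon
    have e : lam \ (lam \ W) = W := by
      ext y
      simp only [ZFSet.mem_sdiff, not_and, not_not]
      exact ⟨fun hy => hy.2 hy.1, fun hy => ⟨hWl hy, fun _ => hy⟩⟩
    rwa [e] at hc
  have hPE : lam \ W ∈ E := mem_of (E := E) (lam \ W)
  obtain ⟨a, ha, ha1, ha2⟩ := hD.split h hF hPE (fun y hy => (ZFSet.mem_sdiff.1 hy).1) hpos hA hAl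
  haveI : InE E a := ⟨h.mem_lE ha⟩
  apply hD.pos a ha
  refine hF.up2 ha1 (hF.final a ha) (mem_of (E := E) (lam \ ap D a))
    (fun y hy => (ZFSet.mem_sdiff.1 hy).1) ?_
  intro y hy hy2
  obtain ⟨hyl, hy3⟩ := ZFSet.mem_sep.1 hy
  have hay : a ∈ y := (ZFSet.mem_sep.1 hy2).2
  refine ZFSet.mem_sdiff.2 ⟨hyl, fun hya => ?_⟩
  refine (ZFSet.mem_sdiff.1 (hy3 hya)).2 ?_
  rw [hW]
  exact ZFSet.mem_sep.2 ⟨hyl, a, hay, ha2, hya⟩

end Pool.GE
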