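import Pool.Agent.Lib.MP_cc7fb1_ge.GA6
import Pool.Agent.Lib.MP_cc7fb1_ge.GA8

/-!
# GE, row A9: the Galvin property from bounded bases, from weak normality
-/

set_option autoImplicit false
set_option linter.unusedVariables false

open Set

namespace Pool.GE

open Pool.MP_3ade05_lc Pool.PC Pool.UL Pool.UT

variable {E : Set ZFSet.{0}} {kap lam del F D : ZFSet.{0}}

/-- Row A9.  `choose_fun` gives `S : del → BS E lam` in `E`; `pigeon` with `J = del`,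
`T = BS E lam` gives `t` with `J' = ZFSet.sep (fun i => ap S i = t) del` not covered by `lam`;
`NF.galvin` for `J'` and `i ↦ ZFSet.sep (fun x => x ∈ UO lam D t → x ∈ ap A i) lam`; intersect with
`UO lam D t ∈ U`. -/
theorem gal_of_base (h : GS E kap lam del) (hF : NF E lam F) (hD : DF E lam F D) {U : ZFSet.{0}}
    (hU : UFk E kap lam U) (hFU : F ⊆ U)
    (hb : ∀ A ∈ U, ∃ S ∈ BS E lam, UO lam D S ∈ U ∧ SubM lam F (UO lam D S) A) :
    GalE E lam del U := by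
  haveI := h.tc
  haveI : InE E lam := ⟨h.lE⟩
  haveI : InE E del := ⟨h.dE⟩
  haveI : InE E F := ⟨hF.mem⟩
  haveI : InE E D := ⟨hD.mem⟩
  haveI : InE E U := ⟨hU.mem⟩
  intro A hA hAd hAU
  haveI : InE E A := ⟨hA⟩
  have hBS : BS E lam ∈ E := mem_of (E := E) (BS E lam)
  obtain ⟨S, hS, hS1, hS2⟩ := choose_fun (E := E)
    (fun i s => UO lam D s ∈ U ∧ SubM lam F (UO lam D s) (ap A i)) h.dE hBS
    (fun i hi => hb _ (hAU i hi))
  haveI : InE E S := ⟨hS⟩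
  obtain ⟨t, ht, hnt⟩ := h.pigeon h.dE h.not_cov_del hBS h.bs_cov hS hS1 (fun i hi => (hS2 i hi).1)
  haveI : InE E t := ⟨h.trans _ hBS _ ht⟩
  set J : ZFSet.{0} := ZFSet.sep (fun i => ap S i = t) del with hJdef
  have hJE : J ∈ E := mem_of (E := E) (ZFSet.sep (fun i => ap S i = t) del)
  haveI : InE E J := ⟨hJE⟩
  have hne : ∃ i, i ∈ J := by
    by_contra hno
    push Not at hno
    exact hnt (cov_id h.lE (fun x hx => absurd hx (hno x)))
  have hUt : UO lam D t ∈ U := by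
    obtain ⟨i, hi⟩ := hne
    obtain ⟨hid, hit⟩ := ZFSet.mem_sep.1 hi
    rw [← hit]
    exact (hS2 i hid).2.1
  set C : ZFSet.{0} := mkF (fun i => ZFSet.sep (fun x => x ∈ UO lam D t → x ∈ ap A i) lam) J
    with hCdef
  have hUtE : UO lam D t ∈ E := mem_of (E := E) (UO lam D t)
  haveI : InE E (UO lam D t) := ⟨hUtE⟩
  have hCE : C ∈ E := mem_of (E := E)
    (mkF (fun i => ZFSet.sep (fun x => x ∈ UO lam D t → x ∈ ap A i) lam) J)
  obtain ⟨j, hj, hj1, hj2, hj3, hj4⟩ := hF.galvin h hJE (fun x hx => (ZFSet.mem_sep.1 hx).1) hnt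
    hCE (FunOn_mkF _ _) (by
      intro i hi
      rw [ap_mkF hi]
      obtain ⟨hid, hit⟩ := ZFSet.mem_sep.1 hi
      have := (hS2 i hid).2.2
      rw [hit] at this
      exact this)
  haveI : InE E j := ⟨hj⟩
  refine ⟨j, hj, hj1, fun x hx => (ZFSet.mem_sep.1 (hj2 x hx)).1, hj3, ?_⟩
  refine hU.toKFil.up2 h (hFU hj4) hUt
    (mem_of (E := E) (ZFSet.sep (fun y => ∀ x ∈ lam, y ∈ ap A (ap j x)) lam))
    (fun y hy => (ZFSet.mem_sep.1 hy).1) ?_
  intro y hy1 hy2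
  obtain ⟨hyl, hy3⟩ := ZFSet.mem_sep.1 hy1
  refine ZFSet.mem_sep.2 ⟨hyl, fun x hx => ?_⟩
  have h1 := hy3 x hx
  rw [ap_mkF (hj2 x hx)] at h1
  exact (ZFSet.mem_sep.1 h1).2 hy2

/-- Row A9.  `gal_of_base`; for `A ∈ U` apply `WN` to the function
`y ↦ lst (ZFSet.sep (fun a => DcB lam F (ap D a) A ∧ y ∈ ap D a) y)`, which is regressive on the set
of `cover_of_dense`, then `base_of_dec`. -/
theorem gal_of_WN (h : GS E kap lam del) (hF : NF E lam F) (hD : DF E lam F D) {U : ZFSet.{0}}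
    (hU : UFk E kap lam U) (hFU : F ⊆ U) (hw : WN E lam U) : GalE E lam del U := by
  haveI := h.tc
  haveI : InE E lam := ⟨h.lE⟩
  haveI : InE E F := ⟨hF.mem⟩
  haveI : InE E D := ⟨hD.mem⟩
  refine gal_of_base h hF hD hU hFU fun A hA => ?_
  have hAE : A ∈ E := h.trans _ hU.mem _ hA
  have hAl : A ⊆ lam := hU.sub A hA
  haveI : InE E A := ⟨hAE⟩
  set f : ZFSet.{0} := mkF (fun y => lst (ZFSet.sep (fun a => DcB lam F (ap D a) A ∧ y ∈ ap D a) y))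
    lam with hfdef
  have hfE : f ∈ E := mem_of (E := E)
    (mkF (fun y => lst (ZFSet.sep (fun a => DcB lam F (ap D a) A ∧ y ∈ ap D a) y)) lam)
  haveI : InE E f := ⟨hfE⟩
  have hcov := hFU (cover_of_dense h hF hD hAE hAl)
  have key : ∀ y ∈ lam, (∃ a ∈ y, DcB lam F (ap D a) A ∧ y ∈ ap D a) →
      ap f y ∈ y ∧ DcB lam F (ap D (ap f y)) A ∧ y ∈ ap D (ap f y) := by
    intro y hy hex
    rw [hfdef, ap_mkF hy]
    obtain ⟨a, ha, ha1, ha2⟩ := hex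
    have h1 := (lst_spec (S := ZFSet.sep (fun a => DcB lam F (ap D a) A ∧ y ∈ ap D a) y)
      (fun x hx => (h.ord_l hy).mem (ZFSet.mem_sep.1 hx).1) ⟨a, ZFSet.mem_sep.2 ⟨ha, ha1, ha2⟩⟩).1
    exact ⟨(ZFSet.mem_sep.1 h1).1, (ZFSet.mem_sep.1 h1).2⟩
  obtain ⟨b, hb, hbU⟩ := hw f hfE (FunOn_mkF _ _) (by
    intro x hx
    rw [ap_mkF hx]
    exact lst_mem h.lam_card.ord h.empty_l (fun z hz => h.sub_l hx (ZFSet.mem_sep.1 hz).1)) (by
    refine hU.toKFil.up _ hcov _ (mem_of (E := E) (ZFSet.sep (fun y => ap f y ∈ y) lam))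
      (fun y hy => (ZFSet.mem_sep.1 hy).1) ?_
    intro y hy
    obtain ⟨hyl, hy1⟩ := ZFSet.mem_sep.1 hy
    exact ZFSet.mem_sep.2 ⟨hyl, (key y hyl hy1).1⟩)
  haveI : InE E b := ⟨h.mem_lE hb⟩
  refine base_of_dec h hF hD hU hFU hA hb ?_
  refine hU.toKFil.up2 h hbU hcov (mem_of (E := E) (Dc lam F D A b))
    (fun y hy => (ZFSet.mem_sep.1 hy).1) ?_
  intro y hy1 hy2
  obtain ⟨hyl, hy3⟩ := ZFSet.mem_sep.1 hy1
  obtain ⟨_, hy4⟩ := ZFSet.mem_sep.1 hy2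
  exact ZFSet.mem_sep.2 ⟨hyl, ap f y, hy3, (key y hyl hy4).2⟩

end Pool.GE
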