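import Pool.Agent.Lib.MP_cc7fb1_ge.GBas

/-!
# GE, row B1: small sets
-/

set_option autoImplicit false
set_option linter.unusedVariables false

open Set

namespace Pool.GE

open Pool.MP_3ade05_lc Pool.PC Pool.UL Pool.UT

variable {E : Set ZFSet.{0}} {kap lam del F D : ZFSet.{0}}

/-- `{∅} ∈ kap`. -/
lemma GS.one_k (h : GS E kap lam del) : (insert ∅ ∅ : ZFSet.{0}) ∈ kap :=
  h.kap_card.inf (ZFSet.omega_succ ZFSet.omega_zero)

/-- `{∅, {∅}} ∈ kap`. -/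
lemma GS.two_k_b (h : GS E kap lam del) :
    (insert (insert ∅ ∅) (insert ∅ ∅) : ZFSet.{0}) ∈ kap :=
  h.kap_card.inf (ZFSet.omega_succ (ZFSet.omega_succ ZFSet.omega_zero))

/-- `kap` is a limit (`reg` for the index set `{∅}`). -/
lemma GS.suc_k (h : GS E kap lam del) {x : ZFSet.{0}} (hx : x ∈ kap) : insert x x ∈ kap := by
  haveI := h.tc
  have h1 := h.one_k
  haveI : InE E (insert ∅ ∅ : ZFSet.{0}) := ⟨h.mem_kE h1⟩
  haveI : InE E x := ⟨h.mem_kE hx⟩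
  have h0 : (∅ : ZFSet.{0}) ∈ (insert ∅ ∅ : ZFSet.{0}) := ZFSet.mem_insert _ _
  obtain ⟨b, hb, hxb⟩ := h.reg _ h1 (mkF (fun _ => x) (insert ∅ ∅))
    (mem_of (E := E) (mkF (fun _ => x) (insert ∅ ∅))) (FunOn_mkF _ _)
    (fun z hz => by rw [ap_mkF hz]; exact hx)
  have h2 : x ∈ b := by
    have := hxb ∅ h0
    rwa [ap_mkF h0] at this
  refine ord_of_sub_mem (ZFSet.isOrdinal_succ (h.ord_k hx)) h.kap_card.ord (b := b) ?_ hb
  intro z hz
  rcases ZFSet.mem_insert_iff.1 hz with hz | hz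
  · rw [hz]; exact h2
  · exact (h.ord_k hb).subset_of_mem h2 hz

lemma Sm.mono {C C' : ZFSet.{0}} (hC : Sm E kap C) (hs : C' ⊆ C) : Sm E kap C' := by
  obtain ⟨a, ha, hc⟩ := hC
  exact ⟨a, ha, cov_sub hc hs⟩

lemma GS.sm_of_mem (h : GS E kap lam del) {a : ZFSet.{0}} (ha : a ∈ kap) : Sm E kap a := by
  haveI := h.tc
  exact ⟨a, ha, cov_id (h.mem_kE ha) (fun _ hx => hx)⟩

lemma GS.sm_cov (h : GS E kap lam del) {C : ZFSet.{0}} (hC : Sm E kap C) : Cov E kap C := by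
  haveI := h.tc
  obtain ⟨a, ha, hc⟩ := hC
  exact cov_mono h.kE (h.sub_k ha) hc

/-- Small subsets of `kap` are bounded (`reg`; values outside `kap` are replaced by `∅`). -/
lemma GS.sm_bdd (h : GS E kap lam del) {s : ZFSet.{0}} (hs : s ∈ E) (hk : s ⊆ kap)
    (hsm : Sm E kap s) : ∃ b ∈ kap, ∀ x ∈ s, x ∈ b := by
  haveI := h.tc
  obtain ⟨a, ha, f, hf, h1, h2⟩ := hsm
  haveI : InE E kap := ⟨h.kE⟩
  haveI : InE E f := ⟨hf⟩
  obtain ⟨g, hg, hg1, hg2⟩ := choose_fun (E := E) (fun x y => ap f x ∈ kap → y = ap f x)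
    (h.mem_kE ha) h.kE (fun x hx => by
      by_cases hc : ap f x ∈ kap
      · exact ⟨ap f x, hc, fun _ => rfl⟩
      · exact ⟨∅, h.empty_k, fun hh => absurd hh hc⟩)
  obtain ⟨b, hb, hb2⟩ := h.reg a ha g hg hg1 (fun x hx => (hg2 x hx).1)
  refine ⟨b, hb, fun y hy => ?_⟩
  obtain ⟨x, hx, hxy⟩ := h2 y hy
  have e := (FunOn.ap_eq h1 hx).1 hxy
  have h3 := (hg2 x hx).2 (by rw [e]; exact hk hy)
  have h4 := hb2 x hx
  rw [h3, e] at h4
  exact h4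

/-- The union of two elements of `kap`. -/
lemma GS.union_k (h : GS E kap lam del) {a b : ZFSet.{0}} (ha : a ∈ kap) (hb : b ∈ kap) :
    a ∪ b ∈ kap := by
  rcases ord_lt_or_le (h.ord_k ha) (h.ord_k hb) with h1 | h1
  · have e : a ∪ b = b := by
      ext z
      rw [ZFSet.mem_union]
      exact ⟨fun hz => hz.elim (fun hz => (h.ord_k hb).subset_of_mem h1 hz) id, Or.inr⟩
    rw [e]; exact hb
  · have e : a ∪ b = a := by
      ext z
      rw [ZFSet.mem_union]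
      exact ⟨fun hz => hz.elim id (fun hz => h1 hz), Or.inl⟩
    rw [e]; exact ha

/-- The power set (of the model) of a small set of `E` is small. -/
lemma GS.pw_sm (h : GS E kap lam del) {C : ZFSet.{0}} (hC : C ∈ E) (hs : Sm E kap C) :
    Sm E kap (pw E C) := by
  haveI := h.tc
  obtain ⟨a, ha, hc⟩ := hs
  obtain ⟨d, hd, hP⟩ := h.SL a ha
  obtain ⟨f, hf, h1, h2⟩ := powLe_cov (h.mem_kE hd) (h.mem_kE ha) hC hc hP
  exact ⟨d, hd, f, hf, h1, fun y hy => h2 y (mem_pw.1 hy).1 (mem_pw.1 hy).2⟩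

/-- The product of two elements of `kap` is small: `prd a b ⊆ pw E (pw E (a ∪ b))`, `a ∪ b ∈ kap`,
`SL` twice, `powLe_cov`. -/
lemma GS.prd_sm (h : GS E kap lam del) {a b : ZFSet.{0}} (ha : a ∈ kap) (hb : b ∈ kap) :
    Sm E kap (prd a b) := by
  haveI := h.tc
  have hu := h.union_k ha hb
  have h1 : Sm E kap (pw E (pw E (a ∪ b))) :=
    h.pw_sm (pw_mem (h.mem_kE hu)) (h.pw_sm (h.mem_kE hu) (h.sm_of_mem hu))
  refine h1.mono ?_
  intro z hz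
  obtain ⟨x, hx, y, hy, rfl⟩ := mem_prd.1 hz
  haveI : InE E x := ⟨h.mem_kE (h.sub_k ha hx)⟩
  haveI : InE E y := ⟨h.mem_kE (h.sub_k hb hy)⟩
  refine mem_pw.2 ⟨mem_of (E := E) (ZFSet.pair x y), ?_⟩
  intro w hw
  have hw' : w = {x} ∨ w = {x, y} := by
    rw [ZFSet.pair] at hw
    rcases ZFSet.mem_pair.1 hw with h2 | h2
    · exact Or.inl h2
    · exact Or.inr h2
  have hxE : x ∈ E := h.mem_kE (h.sub_k ha hx)
  have hyE : y ∈ E := h.mem_kE (h.sub_k hb hy)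
  have hpE : ZFSet.pair x y ∈ E := mem_of (E := E) (ZFSet.pair x y)
  refine mem_pw.2 ⟨h.trans _ hpE _ hw, ?_⟩
  intro v hv
  rw [ZFSet.mem_union]
  rcases hw' with rfl | rfl
  · rw [ZFSet.mem_singleton.1 hv]
    exact Or.inl hx
  · rcases ZFSet.mem_pair.1 hv with rfl | rfl
    · exact Or.inl hx
    · exact Or.inr hy

/-- Row B1: the union of `a ∈ kap` many small sets is small.  `choose_fun` for the bounds `b_i`
(`reg` gives one bound `b`) and for the coverings `b → C i ∩ D`; then `prd a b` covers `D`. -/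
theorem GS.union_sm (h : GS E kap lam del) {a : ZFSet.{0}} (ha : a ∈ kap)
    (C : ZFSet.{0} → ZFSet.{0}) [hC : DfT E (fun v : Fin 1 → ZFSet.{0} => C (v 0))]
    (hs : ∀ i ∈ a, Sm E kap (C i)) {D : ZFSet.{0}} (hD : D ∈ E)
    (hU : ∀ y ∈ D, ∃ i ∈ a, y ∈ C i) : Sm E kap D := by
  haveI := h.tc
  have haE := h.mem_kE ha
  have hC1 : DfT E (fun v : Fin 2 → ZFSet.{0} => C (v 0)) :=
    ⟨fun v hv => hC.mem (fun _ => v 0) (fun _ => hv 0), hC.graph.ren ![0, 1]⟩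
  obtain ⟨B, hB, hB1, hB2⟩ := choose_fun (E := E) (fun i b => Cov E b (C i)) haE h.kE
    (fun i hi => hs i hi)
  obtain ⟨b, hb, hb2⟩ := h.reg a ha B hB hB1 (fun x hx => (hB2 x hx).1)
  have hbE := h.mem_kE hb
  have hcov : ∀ i ∈ a, Cov E b (C i) := fun i hi =>
    cov_mono hbE ((h.ord_k hb).subset_of_mem (hb2 i hi)) (hB2 i hi).2
  haveI : InE E a := ⟨haE⟩
  haveI : InE E b := ⟨hbE⟩
  haveI : InE E D := ⟨hD⟩
  have hPU : pw E (prd b D) ∈ E := mem_of (E := E) (pw E (prd b D))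
  obtain ⟨G, hG, hG1, hG2⟩ := choose_fun (E := E) (fun i z =>
    (∀ x ∈ b, ∀ y ∈ D, ∀ y' ∈ D, ZFSet.pair x y ∈ z → ZFSet.pair x y' ∈ z → y = y') ∧
      ∀ y ∈ C i, y ∈ D → ∃ x ∈ b, ZFSet.pair x y ∈ z) (hR := by
        have g1 : Df E (fun v : Fin 2 → ZFSet.{0} => ∀ x ∈ b, ∀ y ∈ D, ∀ y' ∈ D,
          ZFSet.pair x y ∈ v 1 → ZFSet.pair x y' ∈ v 1 → y = y') := inferInstance
        have g2 : Df E (fun v : Fin 2 → ZFSet.{0} => ∀ y ∈ C (v 0), y ∈ D → ∃ x ∈ b,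
          ZFSet.pair x y ∈ v 1) := inferInstance
        exact Df.instAnd (hP := g1) (hQ := g2)) haE hPU (by
    intro i hi
    obtain ⟨g, hg, hg1, hg2⟩ := hcov i hi
    haveI : InE E g := ⟨hg⟩
    refine ⟨g ∩ prd b D, mem_pw.2 ⟨mem_of (E := E) (g ∩ prd b D), ?_⟩, ?_, ?_⟩
    · intro z hz
      exact (ZFSet.mem_inter.1 hz).2
    · intro x hx y _ y' _ h1 h2
      exact (hg1.2 x hx).unique (ZFSet.mem_inter.1 h1).1 (ZFSet.mem_inter.1 h2).1
    · intro y hy hyD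
      obtain ⟨x, hx, hxy⟩ := hg2 y hy
      exact ⟨x, hx, ZFSet.mem_inter.2 ⟨hxy, pair_mem_prd.2 ⟨hx, hyD⟩⟩⟩)
  haveI : InE E G := ⟨hG⟩
  set F : ZFSet.{0} → ZFSet.{0} := fun p => ZFSet.sUnion (ZFSet.sep (fun y => ∃ i ∈ a, ∃ x ∈ b,
    p = ZFSet.pair i x ∧ ZFSet.pair x y ∈ ap G i) D) with hF
  have hFE : mkF F (prd a b) ∈ E := by
    have h1 : DfT E (fun v : Fin 1 → ZFSet.{0} => F (v 0)) := by
      have h2 : DfT E (fun v : Fin 1 → ZFSet.{0} => ZFSet.sUnion (ZFSet.sep (fun y => ∃ i ∈ a,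
        ∃ x ∈ b, v 0 = ZFSet.pair i x ∧ ZFSet.pair x y ∈ ap G i) D)) :=
        inferInstance
      exact h2
    exact mem_of (E := E) (mkF F (prd a b))
      (h := DfT.instMkF (F := fun x (_ : Fin 0 → ZFSet.{0}) => F x)
      (t := fun _ => prd a b) (hF := h1))
  have hcD : Cov E (prd a b) D := by
    refine ⟨mkF F (prd a b), hFE, FunOn_mkF _ _, fun y hy => ?_⟩
    obtain ⟨i, hi, hyi⟩ := hU y hy
    obtain ⟨g1, g2⟩ := hG2 i hi
    obtain ⟨x, hx, hxy⟩ := g2.2 y hyi hy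
    refine ⟨ZFSet.pair i x, pair_mem_prd.2 ⟨hi, hx⟩,
      pair_mem_mkF.2 ⟨pair_mem_prd.2 ⟨hi, hx⟩, ?_⟩⟩
    have h1 : ZFSet.sep (fun y => ∃ i' ∈ a, ∃ x' ∈ b, ZFSet.pair i x = ZFSet.pair i' x' ∧
      ZFSet.pair x' y ∈ ap G i') D = {y} := by
      ext z
      rw [ZFSet.mem_sep, ZFSet.mem_singleton]
      constructor
      · rintro ⟨hz, i2, hi2, x2, hx2, h3, h4⟩
        obtain ⟨e1, e2⟩ := ZFSet.pair_injective h3
        subst e1
        subst e2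
        exact g2.1 x hx z hz y hy h4 hxy
      · rintro rfl
        exact ⟨hy, i, hi, x, hx, rfl, hxy⟩
    show y = ZFSet.sUnion _
    rw [h1, ZFSet.sUnion_singleton]
  obtain ⟨c, hc, hcc⟩ := h.prd_sm ha hb
  exact ⟨c, hc, cov_trans (h.mem_kE hc) hcD hcc⟩

/-- The union of two small sets. -/
lemma GS.union2_sm (h : GS E kap lam del) {C C' : ZFSet.{0}} (hC : C ∈ E) (hC' : C' ∈ E)
    (h1 : Sm E kap C) (h2 : Sm E kap C') : Sm E kap (C ∪ C') := by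
  haveI := h.tc
  haveI : InE E C := ⟨hC⟩
  haveI : InE E C' := ⟨hC'⟩
  haveI : InE E (∅ : ZFSet.{0}) := ⟨h.emptyE⟩
  refine h.union_sm h.two_k_b
    (fun i => ZFSet.sep (fun y => (i = ∅ ∧ y ∈ C) ∨ (i ≠ ∅ ∧ y ∈ C')) (C ∪ C')) ?_
    (mem_of (E := E) (C ∪ C')) ?_
  · intro i _
    by_cases hi : i = ∅
    · refine h1.mono fun y hy => ?_
      rcases (ZFSet.mem_sep.1 hy).2 with h3 | h3
      · exact h3.2
      · exact absurd hi h3.1
    · refine h2.mono fun y hy => ?_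
      rcases (ZFSet.mem_sep.1 hy).2 with h3 | h3
      · exact absurd h3.1 hi
      · exact h3.2
  · intro y hy
    rcases ZFSet.mem_union.1 hy with h3 | h3
    · refine ⟨∅, ?_, ZFSet.mem_sep.2 ⟨hy, Or.inl ⟨rfl, h3⟩⟩⟩
      exact ZFSet.mem_insert_iff.2 (Or.inr (ZFSet.mem_insert _ _))
    · refine ⟨insert ∅ ∅, ZFSet.mem_insert _ _, ZFSet.mem_sep.2 ⟨hy, Or.inr ⟨?_, h3⟩⟩⟩
      intro he
      have : (∅ : ZFSet.{0}) ∈ (∅ : ZFSet.{0}) := by
        have h4 : (∅ : ZFSet.{0}) ∈ (insert ∅ ∅ : ZFSet.{0}) := ZFSet.mem_insert _ _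
        rwa [he] at h4
      exact ZFSet.notMem_empty _ this

end Pool.GE
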