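import Pool.Agent.Lib.MP_cc7fb1_ge.GB1

/-!
# GE, row B2: the small subsets of an element of `lam`
-/

set_option autoImplicit false
set_option linter.unusedVariables false

open Set

namespace Pool.GE

open Pool.MP_3ade05_lc Pool.PC Pool.UL Pool.UT

variable {E : Set ZFSet.{0}} {kap lam del F D : ZFSet.{0}}

lemma mem_SS {b s : ZFSet.{0}} : s ∈ SS E kap b ↔ s ∈ E ∧ s ⊆ b ∧ Sm E kap s := by
  unfold SS
  rw [ZFSet.mem_sep, mem_pw, and_assoc]

/-- The bounded subsets of `kap` are covered by `kap`. -/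
lemma GS.B2_bs_cov (h : GS E kap lam del) : Cov E kap (BS E kap) := by
  have := h.tc
  refine cov_union (E := E) h.kE h.sqk (fun c => pw E c) ?_ ?_
  · intro c hc
    obtain ⟨d, hd, f, hf, h1, h2⟩ := h.SL c hc
    refine cov_mono h.kE (h.sub_k hd) ⟨f, hf, h1, fun y hy => ?_⟩
    obtain ⟨h3, h4⟩ := mem_pw.1 hy
    exact h2 y h3 h4
  · intro y hy
    unfold BS at hy
    obtain ⟨h1, c, hc, h2⟩ := ZFSet.mem_sep.1 hy
    exact ⟨c, hc, mem_pw.2 ⟨(mem_pw.1 h1).1, h2⟩⟩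

/-- Row B2.  `g : kap → b` onto (`lam_cov`).  A small `s ⊆ b` is `im g t` for the set `t` of the
least preimages (`lst`), which is a small subset of `kap`, hence contained in some `c ∈ kap`
(`sm_bdd`).  So `SS E kap b` is contained in the image of the union of the `pw E c`, `c ∈ kap`
(covered by `kap`: `SL`, `cov_union` with `r = kap`, `sqk`) under `t ↦ im g t`. -/
theorem GS.ss_cov (h : GS E kap lam del) {b : ZFSet.{0}} (hb : b ∈ lam) :
    Cov E kap (SS E kap b) := by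
  have := h.tc
  obtain ⟨g, hg, g1, g2⟩ := h.lam_cov b hb
  have : InE E g := ⟨hg⟩
  have : InE E kap := ⟨h.kE⟩
  refine cov_sub (cov_img (E := E) h.kE h.B2_bs_cov (fun t => im g t)) ?_
  intro s hs
  obtain ⟨hsE, hsb, a0, ha0, hcov⟩ := mem_SS.1 hs
  have : InE E s := ⟨hsE⟩
  obtain ⟨L, hL⟩ : ∃ L : ZFSet.{0} → ZFSet.{0},
      L = fun y => lst (ZFSet.sep (fun x => ap g x = y) kap) := ⟨_, rfl⟩
  have hLs : ∀ y ∈ b, L y ∈ kap ∧ ap g (L y) = y := by
    intro y hy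
    obtain ⟨x, hx, hxy⟩ := g2 y hy
    have h1 : ∀ z ∈ ZFSet.sep (fun x => ap g x = y) kap, z.IsOrdinal := fun z hz =>
      h.ord_k (ZFSet.mem_sep.1 hz).1
    have h2 := (lst_spec h1 ⟨x, ZFSet.mem_sep.2 ⟨hx, (FunOn.ap_eq g1 hx).1 hxy⟩⟩).1
    rw [hL]
    exact ZFSet.mem_sep.1 h2
  have iL : DfT E (fun v : Fin 1 → ZFSet.{0} => L (v 0)) := by
    rw [hL]
    infer_instance
  have htE : img L s ∈ E := by
    have h1 : DfT E (fun _ : Fin 0 → ZFSet.{0} => img L s) :=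
      DfT.instImg (F := fun x (_ : Fin 0 → ZFSet.{0}) => L x) (t := fun _ => s) (hF := iL)
    exact mem_of (E := E) (img L s) (h := h1)
  have hts : img L s ⊆ kap := by
    intro x hx
    obtain ⟨y, hy, rfl⟩ := mem_img.1 hx
    exact (hLs y (hsb hy)).1
  have hsm : Sm E kap (img L s) := ⟨a0, ha0, cov_img (E := E) (h.mem_kE ha0) hcov L⟩
  obtain ⟨c, hc, hc2⟩ := h.sm_bdd htE hts hsm
  refine mem_img.2 ⟨img L s, ?_, ?_⟩
  · unfold BS
    exact ZFSet.mem_sep.2 ⟨mem_pw.2 ⟨htE, hts⟩, c, hc, fun x hx => hc2 x hx⟩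
  · ext y
    show y ∈ s ↔ y ∈ im g (img L s)
    rw [mem_im]
    constructor
    · intro hy
      obtain ⟨h1, h2⟩ := hLs y (hsb hy)
      exact ⟨L y, mem_img.2 ⟨y, hy, rfl⟩, (FunOn.ap_eq g1 h1).2 h2⟩
    · rintro ⟨x, hx, hxy⟩
      obtain ⟨y', hy', rfl⟩ := mem_img.1 hx
      obtain ⟨h1, h2⟩ := hLs y' (hsb hy')
      have h3 := (FunOn.ap_eq g1 h1).1 hxy
      rw [← h3, h2]
      exact hy'

end Pool.GE
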