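import Pool.Agent.Lib.MP_cc7fb1_ge.GA1
import Pool.Agent.Lib.MP_cc7fb1_ge.GB2

/-!
# GE, row B3: closure points
-/

set_option autoImplicit false
set_option linter.unusedVariables false

open Set

namespace Pool.GE

open Pool.MP_3ade05_lc Pool.PC Pool.UL Pool.UT

variable {E : Set ZFSet.{0}} {kap lam del F D : ZFSet.{0}}

/-- Row B3, one step: `bdd` for the image of `SS E kap d`. -/
lemma GS.step (h : GS E kap lam del) {P : ZFSet.{0}} (hP : P ∈ E)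
    (hPf : FunOn P (SS E kap lam)) (hv : ∀ s ∈ SS E kap lam, ap P s ∈ lam) {d : ZFSet.{0}}
    (hd : d ∈ lam) : ∃ g ∈ lam, d ∈ g ∧ ∀ s ∈ SS E kap lam, s ⊆ d → ap P s ∈ g := by
  have := h.tc
  have : InE E kap := ⟨h.kE⟩
  have : InE E lam := ⟨h.lE⟩
  have : InE E P := ⟨hP⟩
  have : InE E d := ⟨h.mem_lE hd⟩
  have hP' : mkF (fun s => ap P s) (SS E kap d) ∈ E :=
    mem_of (E := E) (mkF (fun s => ap P s) (SS E kap d))
  have hsub : ∀ s ∈ SS E kap d, s ∈ SS E kap lam := fun s hs => by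
    obtain ⟨h1, h2, h3⟩ := mem_SS.1 hs
    exact mem_SS.2 ⟨h1, fun x hx => h.sub_l hd (h2 hx), h3⟩
  obtain ⟨b, hb, hb'⟩ := h.bdd_fun (h.ss_cov hd) hP' (FunOn_mkF _ _) (fun s hs => by
    rw [ap_mkF hs]
    exact hv s (hsub s hs))
  refine ⟨b ∪ insert d d, h.union_l hb (h.suc_l hd), ?_, ?_⟩
  · exact ZFSet.mem_union.2 (Or.inr (ZFSet.mem_insert_iff.2 (Or.inl rfl)))
  · intro s hs hsd
    have h1 : s ∈ SS E kap d := mem_SS.2 ⟨(mem_SS.1 hs).1, hsd, (mem_SS.1 hs).2.2⟩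
    have h2 := hb' s h1
    rw [ap_mkF h1] at h2
    exact ZFSet.mem_union.2 (Or.inl h2)

/-- Row B3.  `choose_fun` gives `g : lam → lam` with the property of `GS.step`.  The chain
`c i = ⋃_{j ∈ i} insert (g (c j)) (g (c j))`, `i ∈ kap` (`recur_mem`/`recB` for
`G f = ZFSet.sUnion (img (fun y => insert (ap g y) (ap g y)) (rng f))`, which is in `lam` for
functions `f` with domain in `kap` and values in `lam`, by `bdd_fun`); so `ap g (c j) ∈ c i` for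
`j ∈ i` and `c j ⊆ c i`.  The closure point is the union of the `c i`, `i ∈ kap`; a small subset of it
is contained in some `c i` (`union_sm`-free: the set of the least `i` with `x ∈ c i`, `x ∈ s`, is
small, so `sm_bdd`). -/
theorem GS.clos (h : GS E kap lam del) {P : ZFSet.{0}} (hP : P ∈ E)
    (hPf : FunOn P (SS E kap lam)) (hv : ∀ s ∈ SS E kap lam, ap P s ∈ lam) :
    ∃ g ∈ lam, ∀ s ∈ SS E kap lam, s ⊆ g → ap P s ∈ g := by
  have := h.tc
  have : InE E kap := ⟨h.kE⟩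
  have : InE E lam := ⟨h.lE⟩
  have : InE E P := ⟨hP⟩
  have hR : Df E (fun v : Fin 2 → ZFSet.{0} => v 0 ∈ v 1 ∧ ∀ s ∈ SS E kap lam, s ⊆ v 0 →
    ap P s ∈ v 1) := inferInstance
  obtain ⟨g, hg, hgf, hgv⟩ := choose_fun (E := E) (fun d g => d ∈ g ∧ ∀ s ∈ SS E kap lam,
    s ⊆ d → ap P s ∈ g) h.lE h.lE (fun d hd => h.step hP hPf hv hd)
  have : InE E g := ⟨hg⟩
  obtain ⟨G, hG⟩ : ∃ G : ZFSet.{0} → ZFSet.{0}, G = fun f => ZFSet.sUnion
    (img (fun y => insert (ap g y) (ap g y)) (rng f)) := ⟨_, rfl⟩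
  have hGd : DfT E (fun v : Fin 1 → ZFSet.{0} => G (v 0)) := by
    rw [hG]
    have h1 : DfT E (fun v : Fin 1 → ZFSet.{0} => ZFSet.sUnion
      (img (fun y => insert (ap g y) (ap g y)) (rng (v 0)))) := inferInstance
    exact h1
  obtain ⟨hc, hcE⟩ := recur_mem (E := E) G h.kE h.kap_card.ord
  -- membership
  have hm : ∀ i x, x ∈ recur G i ↔ ∃ j ∈ i, x = ap g (recur G j) ∨ x ∈ ap g (recur G j) := by
    intro i x
    have e1 : recur G i = ZFSet.sUnion (img (fun y => insert (ap g y) (ap g y))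
      (rng (mkF (recur G) i))) := by
      rw [recur_eq, hG]
    rw [e1, ZFSet.mem_sUnion]
    constructor
    · rintro ⟨z, hz, hx⟩
      obtain ⟨y, hy, rfl⟩ := mem_img.1 hz
      obtain ⟨j, hj, rfl⟩ := (mem_rng (FunOn_mkF _ _)).1 hy
      rw [ap_mkF hj] at hx
      exact ⟨j, hj, ZFSet.mem_insert_iff.1 hx⟩
    · rintro ⟨j, hj, hx⟩
      exact ⟨insert (ap g (recur G j)) (ap g (recur G j)), mem_img.2 ⟨recur G j,
        (mem_rng (FunOn_mkF _ _)).2 ⟨j, hj, ap_mkF hj⟩, rfl⟩, ZFSet.mem_insert_iff.2 hx⟩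
  have hordU : ∀ i, (∀ j ∈ i, recur G j ∈ lam) → (recur G i).IsOrdinal := by
    intro i hj
    have hz : ∀ j ∈ i, (ap g (recur G j)).IsOrdinal := fun j h1 => h.ord_l (hgv _ (hj j h1)).1
    rw [ZFSet.isOrdinal_iff_forall_mem_isOrdinal]
    refine ⟨fun x hx y hy => ?_, fun x hx => ?_⟩
    · obtain ⟨j, h1, h2⟩ := (hm i x).1 hx
      refine (hm i y).2 ⟨j, h1, Or.inr ?_⟩
      rcases h2 with rfl | h2
      · exact hy
      · exact (hz j h1).subset_of_mem h2 hy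
    · obtain ⟨j, h1, h2⟩ := (hm i x).1 hx
      rcases h2 with rfl | h2
      · exact hz j h1
      · exact (hz j h1).mem h2
  have hl : ∀ i, i ∈ kap → recur G i ∈ lam := by
    intro i
    induction i using ZFSet.inductionOn with
    | h i ih =>
      intro hi
      have hj : ∀ j ∈ i, recur G j ∈ lam := fun j hj => ih j hj (h.sub_k hi hj)
      have hci : mkF (recur G) i ∈ E := (recur_mem (E := E) G (h.mem_kE hi) (h.ord_k hi)).1
      have : InE E (mkF (recur G) i) := ⟨hci⟩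
      have : InE E i := ⟨h.mem_kE hi⟩
      have hfE : mkF (fun j => ap g (ap (mkF (recur G) i) j)) i ∈ E :=
        mem_of (E := E) (mkF (fun j => ap g (ap (mkF (recur G) i) j)) i)
      obtain ⟨b, hb, hb'⟩ := h.bdd_fun (cov_id h.kE (h.sub_k hi)) hfE (FunOn_mkF _ _)
        (fun j hji => by
          rw [ap_mkF hji, ap_mkF hji]
          exact (hgv _ (hj j hji)).1)
      refine ord_of_sub_mem (hordU i hj) h.lam_card.ord (b := b) (fun x hx => ?_) hb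
      obtain ⟨j, h1, h2⟩ := (hm i x).1 hx
      have h3 := hb' j h1
      rw [ap_mkF h1, ap_mkF h1] at h3
      rcases h2 with rfl | h2
      · exact h3
      · exact (h.ord_l hb).subset_of_mem h3 h2
  have hc1 : ∀ i j, j ∈ i → ap g (recur G j) ∈ recur G i :=
    fun i j hj => (hm i _).2 ⟨j, hj, Or.inl rfl⟩
  have hc2 : ∀ i ∈ kap, ∀ j ∈ i, ∀ x ∈ recur G j, x ∈ recur G i := by
    intro i hi j hj x hx
    have h1 := hgv _ (hl j (h.sub_k hi hj))
    exact (hm i x).2 ⟨j, hj, Or.inr ((h.ord_l h1.1).subset_of_mem h1.2.1 hx)⟩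
  have : InE E (mkF (recur G) kap) := ⟨hc⟩
  obtain ⟨b, hb, hb'⟩ := h.bdd_fun (cov_id h.kE (fun x hx => hx)) hc (FunOn_mkF _ _)
    (fun i hi => by
      rw [ap_mkF hi]
      exact hl i hi)
  have hmγ : ∀ x, x ∈ ZFSet.sUnion (rng (mkF (recur G) kap)) ↔ ∃ i ∈ kap, x ∈ recur G i := by
    intro x
    rw [ZFSet.mem_sUnion]
    constructor
    · rintro ⟨z, hz, hx⟩
      obtain ⟨i, hi, rfl⟩ := (mem_rng (FunOn_mkF _ _)).1 hz
      rw [ap_mkF hi] at hx
      exact ⟨i, hi, hx⟩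
    · rintro ⟨i, hi, hx⟩
      exact ⟨recur G i, (mem_rng (FunOn_mkF _ _)).2 ⟨i, hi, ap_mkF hi⟩, hx⟩
  have hγo : (ZFSet.sUnion (rng (mkF (recur G) kap))).IsOrdinal := by
    rw [ZFSet.isOrdinal_iff_forall_mem_isOrdinal]
    refine ⟨fun x hx y hy => ?_, fun x hx => ?_⟩
    · obtain ⟨i, hi, h2⟩ := (hmγ x).1 hx
      exact (hmγ y).2 ⟨i, hi, (h.ord_l (hl i hi)).subset_of_mem h2 hy⟩
    · obtain ⟨i, hi, h2⟩ := (hmγ x).1 hx
      exact (h.ord_l (hl i hi)).mem h2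
  refine ⟨ZFSet.sUnion (rng (mkF (recur G) kap)), ord_of_sub_mem hγo h.lam_card.ord (b := b)
    (fun x hx => ?_) hb, fun s hs hsγ => ?_⟩
  · obtain ⟨i, hi, h2⟩ := (hmγ x).1 hx
    have h3 := hb' i hi
    rw [ap_mkF hi] at h3
    exact (h.ord_l hb).subset_of_mem h3 h2
  obtain ⟨hsE, hsl, a, ha, hcov⟩ := mem_SS.1 hs
  have : InE E s := ⟨hsE⟩
  have hFd : DfT E (fun v : Fin 1 → ZFSet.{0} =>
    lst (ZFSet.sep (fun i => v 0 ∈ ap (mkF (recur G) kap) i) kap)) := inferInstance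
  have htE : img (fun x => lst (ZFSet.sep (fun i => x ∈ ap (mkF (recur G) kap) i) kap)) s ∈ E :=
    mem_of (E := E) (img (fun x => lst (ZFSet.sep (fun i => x ∈ ap (mkF (recur G) kap) i) kap)) s)
  have htc := cov_img (h.mem_kE ha) hcov
    (fun x => lst (ZFSet.sep (fun i => x ∈ ap (mkF (recur G) kap) i) kap))
  have hsp : ∀ x ∈ s, lst (ZFSet.sep (fun i => x ∈ ap (mkF (recur G) kap) i) kap) ∈ kap ∧
      x ∈ recur G (lst (ZFSet.sep (fun i => x ∈ ap (mkF (recur G) kap) i) kap)) := by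
    intro x hx
    obtain ⟨i, hi, hxi⟩ := (hmγ x).1 (hsγ hx)
    have h1 := (lst_spec (S := ZFSet.sep (fun i => x ∈ ap (mkF (recur G) kap) i) kap)
      (fun i hi => h.ord_k (ZFSet.mem_sep.1 hi).1)
      ⟨i, ZFSet.mem_sep.2 ⟨hi, by rw [ap_mkF hi]; exact hxi⟩⟩).1
    obtain ⟨h2, h3⟩ := ZFSet.mem_sep.1 h1
    rw [ap_mkF h2] at h3
    exact ⟨h2, h3⟩
  obtain ⟨c, hck, hc3⟩ := h.sm_bdd htE (fun y hy => by
    obtain ⟨x, hx, rfl⟩ := mem_img.1 hy
    exact (hsp x hx).1) ⟨a, ha, htc⟩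
  have hsb : s ⊆ recur G c := fun x hx =>
    hc2 c hck _ (hc3 _ (mem_img.2 ⟨x, hx, rfl⟩)) x (hsp x hx).2
  have h1 : ap P s ∈ ap g (recur G c) := (hgv _ (hl c hck)).2.2 s hs hsb
  have h2 : ap g (recur G c) ∈ recur G (insert c c) :=
    hc1 _ c (ZFSet.mem_insert_iff.2 (Or.inl rfl))
  exact (hmγ _).2 ⟨insert c c, h.suc_k hck, (h.ord_l (hl _ (h.suc_k hck))).subset_of_mem h2 h1⟩

end Pool.GE
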