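import Pool.Agent.Lib.MP_cc7fb1_ge.GB3
import Pool.Agent.Lib.MP_cc7fb1_ge.GA7

/-!
# GE, row B4: good bounds
-/

set_option autoImplicit false
set_option linter.unusedVariables false

open Set

namespace Pool.GE

open Pool.MP_3ade05_lc Pool.PC Pool.UL Pool.UT

variable {E : Set ZFSet.{0}} {kap lam del F D : ZFSet.{0}}

/-- Row B4.  `choose_fun` on `SS E kap lam` with values in `lam` for the relation
`(∃ a ∈ lam, LB s a) → LB s b ∧ b ∈ I` (use `DI` for `ap D a`, `SubM.trans`); then `clos`. -/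
theorem exists_GB (h : GS E kap lam del) (hF : NF E lam F) (hD : DF E lam F D) {I : ZFSet.{0}}
    (hI : I ∈ pw E lam) (hd : DI E lam F D I) : ∃ g ∈ lam, GB E kap lam F D I g := by
  haveI := h.tc
  haveI : InE E lam := ⟨h.lE⟩
  haveI : InE E kap := ⟨h.kE⟩
  haveI : InE E F := ⟨hF.mem⟩
  haveI : InE E D := ⟨hD.mem⟩
  haveI : InE E I := ⟨(mem_pw.1 hI).1⟩
  obtain ⟨P, hP, hPf, hPv⟩ := choose_fun (E := E) (fun s b =>
    (∃ a ∈ lam, LB lam F D s a) → LB lam F D s b ∧ b ∈ I)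
    (mem_of (E := E) (SS E kap lam)) h.lE (by
    intro s hs
    by_cases hc : ∃ a ∈ lam, LB lam F D s a
    · obtain ⟨a, ha, ha'⟩ := hc
      haveI : InE E a := ⟨h.mem_lE ha⟩
      have haE : ap D a ∈ E := mem_of (E := E) (ap D a)
      obtain ⟨b, hb, hb'⟩ := hd (ap D a) haE (hD.sub a ha) (hD.pos a ha)
      have hbl : b ∈ lam := (mem_pw.1 hI).2 hb
      haveI : InE E b := ⟨h.mem_lE hbl⟩
      refine ⟨b, hbl, fun _ => ⟨fun x hx => ?_, hb⟩⟩
      haveI : InE E x := ⟨h.mem_lE ((mem_SS.1 hs).2.1 hx)⟩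
      exact SubM.trans h hF (mem_of (E := E) (ap D b)) (mem_of (E := E) (ap D x)) hb' (ha' x hx)
    · exact ⟨∅, h.empty_l, fun h1 => absurd h1 hc⟩)
  obtain ⟨g, hg, hg'⟩ := h.clos hP hPf (fun s hs => (hPv s hs).1)
  refine ⟨g, hg, fun s hs hsg hlb => ?_⟩
  obtain ⟨h1, h2⟩ := (hPv s hs).2 hlb
  exact ⟨ap P s, hg' s hs hsg, h1, h2⟩

end Pool.GE
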