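import Pool.Agent.Lib.MP_cc7fb1_ge.GB1

/-!
# GE, row B5: sorting
-/

set_option autoImplicit false
set_option linter.unusedVariables false

open Set

namespace Pool.GE

open Pool.MP_3ade05_lc Pool.PC Pool.UL Pool.UT

variable {E : Set ZFSet.{0}} {kap lam del F D : ZFSet.{0}}

/-- The candidates for the next index. -/
noncomputable def srt (a g f : ZFSet.{0}) : ZFSet.{0} :=
  ZFSet.sep (fun i => (i ∈ a ∧ i ∉ rng f ∧ ∀ k ∈ a, k ∉ rng f → ap g i ⊆ ap g k) ∨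
    (i = a ∧ ∀ k ∈ a, k ∈ rng f)) (insert a a)

/-- Row B5.  The enumeration `e : kap → insert a a` of `a` in increasing order of `(g i, i)`. -/
theorem GS.sort (h : GS E kap lam del) {a g : ZFSet.{0}} (ha : a ∈ kap) (hg : g ∈ E)
    (hga : FunOn g a) (hv : ∀ x ∈ a, ap g x ∈ lam) :
    ∃ t ∈ kap, ∃ e ∈ E, FunOn e t ∧ (∀ x ∈ t, ap e x ∈ a) ∧ (∀ i ∈ a, ∃ x ∈ t, ap e x = i) ∧
      ∀ x ∈ t, ∀ y ∈ x, ap g (ap e y) ⊆ ap g (ap e x) := by
  haveI := h.tc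
  have haE := h.mem_kE ha
  haveI : InE E a := ⟨haE⟩
  haveI : InE E g := ⟨hg⟩
  haveI : InE E kap := ⟨h.kE⟩
  have hao := h.ord_k ha
  have hio : ∀ i ∈ insert a a, i.IsOrdinal := by
    intro i hi
    rcases ZFSet.mem_insert_iff.1 hi with rfl | hi
    · exact hao
    · exact hao.mem hi
  have hne : ∀ f : ZFSet.{0}, ∃ i, i ∈ srt a g f := by
    intro f
    by_cases hc : ∀ k ∈ a, k ∈ rng f
    · exact ⟨a, ZFSet.mem_sep.2 ⟨by simp, Or.inr ⟨rfl, hc⟩⟩⟩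
    · push Not at hc
      obtain ⟨k, hk, hk'⟩ := hc
      obtain ⟨m, ⟨i, hi, hi', rfl⟩, hmin⟩ := ZFSet.mem_wf.has_min
        {z | ∃ i ∈ a, i ∉ rng f ∧ z = ap g i} ⟨_, k, hk, hk', rfl⟩
      refine ⟨i, ZFSet.mem_sep.2 ⟨ZFSet.mem_insert_iff.2 (Or.inr hi), Or.inl ⟨hi, hi', ?_⟩⟩⟩
      intro k hk hk'
      rcases ord_lt_or_le (h.ord_l (hv k hk)) (h.ord_l (hv i hi)) with h1 | h1
      · exact absurd h1 (hmin _ ⟨k, hk, hk', rfl⟩)
      · exact h1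
  have hsub : ∀ f : ZFSet.{0}, srt a g f ⊆ insert a a := fun f i hi => (ZFSet.mem_sep.1 hi).1
  have hlst : ∀ f : ZFSet.{0}, lst (srt a g f) ∈ srt a g f := fun f =>
    (lst_spec (fun i hi => hio i (hsub f hi)) (hne f)).1
  haveI : DfT E (fun v : Fin 1 → ZFSet.{0} => lst (srt a g (v 0))) := by
    have h1 : DfT E (fun v : Fin 1 → ZFSet.{0} => lst (ZFSet.sep (fun i =>
      (i ∈ a ∧ i ∉ rng (v 0) ∧ ∀ k ∈ a, k ∉ rng (v 0) → ap g i ⊆ ap g k) ∨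
      (i = a ∧ ∀ k ∈ a, k ∈ rng (v 0))) (insert a a))) := inferInstance
    exact h1
  obtain ⟨e, he, hek, hev⟩ := recB (E := E) (fun f => lst (srt a g f)) h.kE h.kap_card.ord
    (insert_mem haE haE) (fun f _ => hsub f (hlst f))
  have hrng : ∀ i ∈ kap, ∀ k, k ∈ rng (rs e i) ↔ ∃ j ∈ i, ap e j = k := by
    intro i hi k
    obtain ⟨_, h1, h2, h3, _⟩ := hev i hi
    rw [mem_rng h2]
    exact exists_congr fun j => and_congr_right fun hj => by rw [h3 j hj]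
  have hcase : ∀ i ∈ kap, (ap e i ∈ a ∧ (∀ j ∈ i, ap e j ≠ ap e i) ∧
      ∀ k ∈ a, (∀ j ∈ i, ap e j ≠ k) → ap g (ap e i) ⊆ ap g k) ∨
      (ap e i = a ∧ ∀ k ∈ a, ∃ j ∈ i, ap e j = k) := by
    intro i hi
    have h1 : ap e i ∈ srt a g (rs e i) := by
      have h2 := (hev i hi).2.2.2.2
      rw [h2]
      exact hlst _
    rcases (ZFSet.mem_sep.1 h1).2 with ⟨h3, h4, h5⟩ | ⟨h3, h4⟩
    · refine Or.inl ⟨h3, ?_, ?_⟩
      · intro j hj hje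
        exact h4 ((hrng i hi _).2 ⟨j, hj, hje⟩)
      · intro k hk hk'
        refine h5 k hk fun hkr => ?_
        obtain ⟨j, hj, hje⟩ := (hrng i hi k).1 hkr
        exact hk' j hj hje
    · exact Or.inr ⟨h3, fun k hk => (hrng i hi k).1 (h4 k hk)⟩
  haveI : InE E e := ⟨he⟩
  have hex : ∃ x ∈ kap, ap e x = a := by
    by_contra hcon
    push Not at hcon
    have h1 : ∀ i ∈ kap, ap e i ∈ a ∧ ∀ j ∈ i, ap e j ≠ ap e i := by
      intro i hi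
      rcases hcase i hi with h2 | h2
      · exact ⟨h2.1, h2.2.1⟩
      · exact absurd h2.1 (hcon i hi)
    have hinj : ∀ i ∈ kap, ∀ j ∈ kap, ap e i = ap e j → i = j := by
      intro i hi j hj hij
      rcases (h.ord_k hi).mem_trichotomous (h.ord_k hj) with h2 | h2 | h2
      · exact absurd hij ((h1 j hj).2 i h2)
      · exact h2
      · exact absurd hij.symm ((h1 i hi).2 j h2)
    obtain ⟨y, hy, hny⟩ := h.kap_card.card a ha
      (mkF (fun k => lst (ZFSet.sep (fun i => ap e i = k) kap)) a)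
      (mem_of (E := E) (mkF (fun k => lst (ZFSet.sep (fun i => ap e i = k) kap)) a))
      (FunOn_mkF _ _)
    refine hny (ap e y) (h1 y hy).1 (pair_mem_mkF.2 ⟨(h1 y hy).1, ?_⟩)
    have h3 : y ∈ ZFSet.sep (fun i => ap e i = ap e y) kap := ZFSet.mem_sep.2 ⟨hy, rfl⟩
    have h4 := (lst_spec (S := ZFSet.sep (fun i => ap e i = ap e y) kap)
      (fun x hx => h.ord_k (ZFSet.mem_sep.1 hx).1) ⟨y, h3⟩).1
    obtain ⟨h5, h6⟩ := ZFSet.mem_sep.1 h4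
    exact (hinj _ h5 _ hy h6).symm
  obtain ⟨x₀, hx₀, hx₀'⟩ := hex
  obtain ⟨t, ⟨ht, hta⟩, hmin⟩ := ZFSet.mem_wf.has_min {x | x ∈ kap ∧ ap e x = a} ⟨x₀, hx₀, hx₀'⟩
  have hlt : ∀ x ∈ t, x ∈ kap ∧ ap e x ≠ a := by
    intro x hx
    have h1 := h.sub_k ht hx
    exact ⟨h1, fun h2 => hmin x ⟨h1, h2⟩ hx⟩
  obtain ⟨_, h1, h2, h3, _⟩ := hev t ht
  have hin : ∀ x ∈ t, ap e x ∈ a ∧ (∀ j ∈ x, ap e j ≠ ap e x) ∧
      ∀ k ∈ a, (∀ j ∈ x, ap e j ≠ k) → ap g (ap e x) ⊆ ap g k := by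
    intro x hx
    obtain ⟨h4, h5⟩ := hlt x hx
    rcases hcase x h4 with h6 | h6
    · exact h6
    · exact absurd h6.1 h5
  refine ⟨t, ht, rs e t, h1, h2, ?_, ?_, ?_⟩
  · intro x hx
    rw [h3 x hx]
    exact (hin x hx).1
  · intro i hi
    rcases hcase t ht with h4 | h4
    · exact absurd (hta ▸ h4.1) (ZFSet.mem_irrefl a)
    · obtain ⟨j, hj, hj'⟩ := h4.2 i hi
      exact ⟨j, hj, by rw [h3 j hj]; exact hj'⟩
  · intro x hx y hy
    have hyt : y ∈ t := (h.ord_k ht).subset_of_mem hx hy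
    rw [h3 x hx, h3 y hyt]
    refine (hin y hyt).2.2 _ (hin x hx).1 fun j hj => ?_
    exact (hin x hx).2.1 j (((h.ord_k ht).mem hx).subset_of_mem hy hj)

end Pool.GE
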