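import Pool.Agent.Lib.MP_cc7fb1_ge.GB2
import Pool.Agent.Lib.MP_cc7fb1_ge.GB5
import Pool.Agent.Lib.MP_cc7fb1_ge.GA7

/-!
# GE, row B6: common lower bounds
-/

set_option autoImplicit false
set_option linter.unusedVariables false

open Set

namespace Pool.GE

open Pool.MP_3ade05_lc Pool.PC Pool.UL Pool.UT

variable {E : Set ZFSet.{0}} {kap lam del F D : ZFSet.{0}}

/-- Row B6, monotone case.  Recursion `d x = lst (ZFSet.sep (fun b => b ∈ ap g x ∧
LB (rng (d ↾ x)) b ∧ b ∈ ap I x) lam)` along `t` (`recB` for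
`G f = lst (ZFSet.sep (fun b => b ∈ ap g (dmn f) ∧ LB lam F D (rng f) b ∧ b ∈ ap I (dmn f)) lam)`,
`b = lam`, `lst_mem`).  By induction `d x ∈ ap g x`, `d x ∈ ap I x` and
`SubM (ap D (d x)) (ap D (d y))` for `y ∈ x`: the set `rng (d ↾ x)` is a small subset of `ap g x` by
monotonicity and has a lower bound by `DescCl` for `d ↾ x`; use `GB`.  Finally `DescCl` for `d` and
`SubM (ap D (d x)) (Bl lam D (ap I x) (ap g x))` by `SubM.of_sub`. -/
theorem common_aux (h : GS E kap lam del) (hF : NF E lam F) (hD : DF E lam F D)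
    (hcl : DescCl E kap lam F D) {t I g : ZFSet.{0}} (ht : t ∈ kap) (hI : I ∈ E)
    (hIt : FunOn I t) (hg : g ∈ E) (hgt : FunOn g t) (hgl : ∀ x ∈ t, ap g x ∈ lam)
    (hgb : ∀ x ∈ t, GB E kap lam F D (ap I x) (ap g x))
    (hm : ∀ x ∈ t, ∀ y ∈ x, ap g y ⊆ ap g x) :
    ∃ d ∈ lam, ∀ x ∈ t, SubM lam F (ap D d) (Bl lam D (ap I x) (ap g x)) := by
  haveI := h.tc
  have htE := h.mem_kE ht
  haveI : InE E t := ⟨htE⟩
  haveI : InE E g := ⟨hg⟩
  haveI : InE E I := ⟨hI⟩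
  haveI : InE E lam := ⟨h.lE⟩
  haveI : InE E kap := ⟨h.kE⟩
  haveI : InE E F := ⟨hF.mem⟩
  haveI : InE E D := ⟨hD.mem⟩
  have hto := h.ord_k ht
  set G : ZFSet.{0} → ZFSet.{0} := fun f => lst (ZFSet.sep (fun b => b ∈ ap g (dmn f) ∧
    LB lam F D (rng f) b ∧ b ∈ ap I (dmn f)) lam) with hG
  haveI : DfT E (fun v : Fin 1 → ZFSet.{0} => G (v 0)) := by
    have h1 : DfT E (fun v : Fin 1 → ZFSet.{0} => lst (ZFSet.sep (fun b =>
      b ∈ ap g (dmn (v 0)) ∧ LB lam F D (rng (v 0)) b ∧ b ∈ ap I (dmn (v 0))) lam)) :=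
      inferInstance
    exact h1
  obtain ⟨d, hd, hdt, hdv⟩ := recB (E := E) G htE hto h.lE (fun f _ =>
    lst_mem h.lam_card.ord h.empty_l (fun b hb => (ZFSet.mem_sep.1 hb).1))
  have hrng : ∀ x ∈ t, ∀ k, k ∈ rng (rs d x) ↔ ∃ y ∈ x, ap d y = k := by
    intro x hx k
    obtain ⟨_, h1, h2, h3, _⟩ := hdv x hx
    rw [mem_rng h2]
    exact exists_congr fun j => and_congr_right fun hj => by rw [h3 j hj]
  have key : ∀ x, x ∈ t → ap d x ∈ ap g x ∧ ap d x ∈ ap I x ∧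
      ∀ y ∈ x, SubM lam F (ap D (ap d x)) (ap D (ap d y)) := by
    intro x
    induction x using ZFSet.inductionOn with
    | h x ih =>
      intro hx
      obtain ⟨_, h1, h2, h3, h4⟩ := hdv x hx
      have hxk : x ∈ kap := h.sub_k ht hx
      have hxt : x ⊆ t := hto.subset_of_mem hx
      have hsub : rng (rs d x) ⊆ ap g x := by
        intro k hk
        obtain ⟨y, hy, rfl⟩ := (hrng x hx k).1 hk
        exact hm x hx y hy (ih y hy (hxt hy)).1
      have hSS : rng (rs d x) ∈ SS E kap lam := by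
        refine mem_SS.2 ⟨rng_memE h1, fun k hk => ?_, x, hxk, cov_rng h1 h2⟩
        exact h.sub_l (hgl x hx) (hsub hk)
      have hlb : ∃ a ∈ lam, LB lam F D (rng (rs d x)) a := by
        obtain ⟨a, ha, ha'⟩ := hcl x hxk (rs d x) h1 h2 (fun y hy => by
          rw [h3 y hy]
          exact (hdv y (hxt hy)).1) (fun y hy z hz => by
          rw [h3 y hy, h3 z ((hto.mem hx).subset_of_mem hy hz)]
          exact (ih y hy (hxt hy)).2.2 z hz)
        refine ⟨a, ha, fun k hk => ?_⟩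
        obtain ⟨y, hy, rfl⟩ := (hrng x hx k).1 hk
        have := ha' y hy
        rwa [h3 y hy] at this
      obtain ⟨b, hb1, hb2, hb3⟩ := hgb x hx _ hSS hsub hlb
      have h5 : ap d x ∈ ZFSet.sep (fun b => b ∈ ap g (dmn (rs d x)) ∧
          LB lam F D (rng (rs d x)) b ∧ b ∈ ap I (dmn (rs d x))) lam := by
        rw [h4]
        refine (lst_spec (fun z hz => h.ord_l (ZFSet.mem_sep.1 hz).1) ⟨b, ?_⟩).1
        refine ZFSet.mem_sep.2 ⟨h.sub_l (hgl x hx) hb1, ?_, hb2, ?_⟩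
        · rw [dmn_eq h2]
          exact hb1
        · rw [dmn_eq h2]
          exact hb3
      obtain ⟨_, h6, h7, h8⟩ := ZFSet.mem_sep.1 h5
      rw [dmn_eq h2] at h6 h8
      exact ⟨h6, h8, fun y hy => h7 _ ((hrng x hx _).2 ⟨y, hy, rfl⟩)⟩
  obtain ⟨a, ha, ha'⟩ := hcl t ht d hd hdt (fun x hx => (hdv x hx).1)
    (fun x hx y hy => (key x hx).2.2 y hy)
  refine ⟨a, ha, fun x hx => ?_⟩
  haveI : InE E x := ⟨h.trans _ htE _ hx⟩
  haveI : InE E a := ⟨h.mem_lE ha⟩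
  refine SubM.trans h hF (mem_of (E := E) (ap D a))
    (mem_of (E := E) (Bl lam D (ap I x) (ap g x))) (ha' x hx) (SubM.of_sub h hF ?_)
  intro y hy hyD
  exact ZFSet.mem_sep.2 ⟨hy, ap d x, (key x hx).1, (key x hx).2.1, hyD⟩

/-- Row B6.  `GS.sort` and `common_aux` for the functions `cmp I e t` and `cmp g e t`. -/
theorem common (h : GS E kap lam del) (hF : NF E lam F) (hD : DF E lam F D)
    (hcl : DescCl E kap lam F D) {a I g : ZFSet.{0}} (ha : a ∈ kap) (hI : I ∈ E)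
    (hIa : FunOn I a) (hg : g ∈ E) (hga : FunOn g a) (hgl : ∀ x ∈ a, ap g x ∈ lam)
    (hgb : ∀ x ∈ a, GB E kap lam F D (ap I x) (ap g x)) :
    ∃ d ∈ lam, ∀ x ∈ a, SubM lam F (ap D d) (Bl lam D (ap I x) (ap g x)) := by
  haveI := h.tc
  obtain ⟨t, ht, e, he, het, hea, hes, hem⟩ := h.sort ha hg hga hgl
  have htE := h.mem_kE ht
  obtain ⟨d, hd, hd'⟩ := common_aux h hF hD hcl ht (cmp_mem hI he htE) (cmp_fn I e t)
    (cmp_mem hg he htE) (cmp_fn g e t) (fun x hx => by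
      rw [ap_cmp hx]
      exact hgl _ (hea x hx)) (fun x hx => by
      rw [ap_cmp hx, ap_cmp hx]
      exact hgb _ (hea x hx)) (fun x hx y hy => by
      rw [ap_cmp hx, ap_cmp ((h.ord_k ht).subset_of_mem hx hy)]
      exact hem x hx y hy)
  refine ⟨d, hd, fun i hi => ?_⟩
  obtain ⟨x, hx, rfl⟩ := hes i hi
  have h1 := hd' x hx
  rwa [ap_cmp hx, ap_cmp hx] at h1

end Pool.GE
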